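import Pool.Agent.H94.Deg.Macaulay
import Pool.Agent.H94.Cubic.Bun

/-!
# Varieties containing a complete intersection: definitions
-/

open MvPolynomial

set_option linter.unusedSectionVars false
set_option linter.unusedVariables false

namespace H71.CI

open H89.Hart H94.Cubic H94.Deg

section

variable {σ : Type*} [Fintype σ] [DecidableEq σ] {K : Type*}

/-- `x` is a nonzero common zero of the forms `f k`. -/
def Y (f : K → MvPolynomial σ ℂ) (x : σ → ℂ) : Prop := x ≠ 0 ∧ ∀ k, eval x (f k) = 0

/-- the ideal generated by the `f k`. -/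
noncomputable def PP (f : K → MvPolynomial σ ℂ) : Ideal (MvPolynomial σ ℂ) := Ideal.span (Set.range f)

/-- `a` lies in the ideal `c` locally at `x`. -/
def Loc (x : σ → ℂ) (c : Ideal (MvPolynomial σ ℂ)) (a : MvPolynomial σ ℂ) : Prop :=
  ∃ u, eval x u ≠ 0 ∧ u * a ∈ c

/-- the `f k` are forms of degrees `d k ≥ 1` and define a complete intersection. -/
structure CIx [Fintype K] (f : K → MvPolynomial σ ℂ) (d : K → ℕ) : Prop where
  hom : ∀ k, (f k).IsHomogeneous (d k)
  pos : ∀ k, 1 ≤ d k
  codim : ∀ Q : Ideal (MvPolynomial σ ℂ), HP Q → (∀ k, f k ∈ Q) →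
    dm Q + Fintype.card K ≤ Fintype.card σ
  big : 3 * Fintype.card K < Fintype.card σ

/-- the coefficient vectors of the elements of `I`. -/
noncomputable def HH [Fintype K] (I : Ideal (MvPolynomial σ ℂ)) (f : K → MvPolynomial σ ℂ) :
    Submodule (MvPolynomial σ ℂ) (K → MvPolynomial σ ℂ) where
  carrier := {h | ∑ k, h k * f k ∈ I}
  add_mem' := by
    intro a b ha hb
    have : ∑ k, (a + b) k * f k = ∑ k, a k * f k + ∑ k, b k * f k := by
      rw [← Finset.sum_add_distrib]
      exact Finset.sum_congr rfl fun k _ => by rw [Pi.add_apply, add_mul]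
    change ∑ k, (a + b) k * f k ∈ I
    rw [this]
    exact I.add_mem ha hb
  zero_mem' := by
    change ∑ k, (0 : K → MvPolynomial σ ℂ) k * f k ∈ I
    simp
  smul_mem' := by
    intro c a ha
    have : ∑ k, (c • a) k * f k = c * ∑ k, a k * f k := by
      rw [Finset.mul_sum]
      exact Finset.sum_congr rfl fun k _ => by rw [Pi.smul_apply, smul_eq_mul, mul_assoc]
    change ∑ k, (c • a) k * f k ∈ I
    rw [this]
    exact I.mul_mem_left _ ha

theorem mem_HH [Fintype K] {I : Ideal (MvPolynomial σ ℂ)} {f : K → MvPolynomial σ ℂ}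
    {h : K → MvPolynomial σ ℂ} : h ∈ HH I f ↔ ∑ k, h k * f k ∈ I := Iff.rfl

/-- the situation of the main theorem: `V(I)` is irreducible of codimension `r`, contains the
complete intersection `V(f)` and is nonsingular along it. -/
structure Ctx [Fintype K] (I : Ideal (MvPolynomial σ ℂ)) (r : ℕ) (f : K → MvPolynomial σ ℂ)
    (d : K → ℕ) : Prop extends CIx f d where
  prime : I.IsPrime
  homog : ∀ g ∈ I, ∀ e, homogeneousComponent e g ∈ I
  dim : dm I + r = Fintype.card σ
  sub : I ≤ PP f
  rank : ∀ x, Y f x → Module.finrank ℂ (N I x) = r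

/-- pivot set: at every point of the complete intersection the evaluations of `HH I f` project
bijectively to the coordinates in `J`. -/
def Pivot [Fintype K] [DecidableEq K] (I : Ideal (MvPolynomial σ ℂ))
    (f : K → MvPolynomial σ ℂ) (J : Finset K) (x : σ → ℂ) (h : K → K → MvPolynomial σ ℂ) : Prop :=
  (∀ l, h l ∈ HH I f) ∧ ∀ l ∈ J, ∀ j ∈ J, eval x (h l j) = if l = j then 1 else 0

end

/-- quasi-regularity of the family `a` modulo the ideal `c`. -/
def QR {A : Type*} [CommRing A] {T : Type*} (c : Ideal A) (a : T → A) : Prop :=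
  ∀ (ν : ℕ) (F : MvPolynomial T A), F.IsHomogeneous ν →
    eval a F ∈ c ⊔ Ideal.span (Set.range a) ^ (ν + 1) →
      ∀ m, coeff m F ∈ c ⊔ Ideal.span (Set.range a)

end H71.CI
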