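import Pool.Agent.H71.CI.Defs

/-!
# Complete intersections: quasi-regularity, depth two, gluing
-/

open MvPolynomial

set_option linter.unusedSectionVars false
set_option linter.unusedVariables false

namespace H71.CI

open H89.Hart H94.Cubic H94.Deg

section

variable {σ : Type*} [Fintype σ] [DecidableEq σ] {K : Type*} [Fintype K] [DecidableEq K]

/-- D2: depth two. -/
theorem depth_two [Nonempty K] {f : K → MvPolynomial σ ℂ} {d : K → ℕ} (h : CIx f d) :
    ∃ u₀ u₁ : MvPolynomial σ ℂ, u₀.IsHomogeneous 1 ∧ u₁.IsHomogeneous 1 ∧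
      (∀ k a, u₀ ^ k * a ∈ PP f → a ∈ PP f) ∧
      ∀ k l a, u₁ ^ l * a ∈ PP f ⊔ Ideal.span {u₀ ^ k} → a ∈ PP f ⊔ Ideal.span {u₀ ^ k} := by
  let φ : Fin (Fintype.card K) ≃ K := (Fintype.equivFin K).symm
  have hr : Set.range (fun i => f (φ i)) = Set.range f := φ.surjective.range_comp f
  have hbig := h.big
  have hK : 0 < Fintype.card K := Fintype.card_pos
  obtain ⟨u, hu, hreg, -⟩ := cm_gen (q := 2) (fun i => f (φ i))
    (fun i => ⟨d (φ i), h.pos _, h.hom _⟩)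
    (by
      intro Q hQ hf
      apply h.codim Q hQ
      intro k
      have := hf (φ.symm k)
      rwa [Equiv.apply_symm_apply] at this)
    (by omega)
  rw [hr] at hreg
  change ∀ j a, u j * a ∈ PP f ⊔ Ideal.span (u '' {i | i < j}) →
    a ∈ PP f ⊔ Ideal.span (u '' {i | i < j}) at hreg
  have hreg0 : ∀ a, u 0 * a ∈ PP f → a ∈ PP f := by
    intro a ha
    have h1 := hreg 0 a (Ideal.mem_sup_left ha)
    have h2 : u '' {i | i < (0 : Fin 2)} = (∅ : Set (MvPolynomial σ ℂ)) := by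
      ext p
      simp
    rw [h2, Ideal.span_empty, sup_bot_eq] at h1
    exact h1
  have h3 : u '' {i | i < (1 : Fin 2)} = {u 0} := by
    ext p
    constructor
    · rintro ⟨i, hi, rfl⟩
      have hi' : i < (1 : Fin 2) := hi
      have : i = 0 := by
        rw [Fin.lt_def] at hi'
        apply Fin.ext
        simp at hi' ⊢
        exact hi'
      subst this
      rfl
    · rintro rfl
      exact ⟨0, (by decide : (0 : Fin 2) < 1), rfl⟩
  have hreg1 : ∀ a, u 1 * a ∈ PP f ⊔ Ideal.span {u 0} → a ∈ PP f ⊔ Ideal.span {u 0} := by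
    intro a ha
    have := hreg 1 a
    rw [h3] at this
    exact this ha
  have hreg1' : ∀ (k : ℕ) (a : MvPolynomial σ ℂ), u 1 * a ∈ PP f ⊔ Ideal.span {u 0 ^ k} →
      a ∈ PP f ⊔ Ideal.span {u 0 ^ k} := by
    intro k
    induction k with
    | zero =>
      intro a _
      rw [pow_zero, Ideal.span_singleton_one, sup_top_eq]
      exact Submodule.mem_top
    | succ k ih =>
      intro a ha
      obtain ⟨p', hp', c, hc⟩ := mem_sup_span.1 ha
      have h4 : u 1 * a ∈ PP f ⊔ Ideal.span {u 0} := by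
        rw [mem_sup_span]
        exact ⟨p', hp', u 0 ^ k * c, by rw [hc, pow_succ']; ring⟩
      obtain ⟨p, hp, b, rfl⟩ := mem_sup_span.1 (hreg1 a h4)
      have h5 : u 1 * b ∈ PP f ⊔ Ideal.span {u 0 ^ k} := by
        rw [mem_sup_span]
        refine ⟨u 1 * b - u 0 ^ k * c, ?_, c, by ring⟩
        apply hreg0
        have : u 0 * (u 1 * b - u 0 ^ k * c) = p' - u 1 * p := by
          have h6 : u 1 * (p + u 0 * b) = p' + u 0 ^ (k + 1) * c := hc
          rw [pow_succ'] at h6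
          linear_combination h6
        rw [this]
        exact sub_mem hp' (Ideal.mul_mem_left _ _ hp)
      obtain ⟨q, hq, e, rfl⟩ := mem_sup_span.1 (ih b h5)
      rw [mem_sup_span]
      exact ⟨p + u 0 * q, add_mem hp (Ideal.mul_mem_left _ _ hq), e, by rw [pow_succ']; ring⟩
  exact ⟨u 0, u 1, hu 0, hu 1, fun k a ha => pow_reg hreg0 k a ha,
    fun k l a ha => pow_reg (hreg1' k) l a ha⟩

/-- D3: an ideal without nonzero zeros contains powers of all linear forms. -/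
theorem pow_mem_of_cone {b : Ideal (MvPolynomial σ ℂ)} (h : ∀ x ∈ cone b, x = 0)
    {u : MvPolynomial σ ℂ} (hu : u.IsHomogeneous 1) : ∃ k, ∀ m, k ≤ m → u ^ m ∈ b := by
  have hu0 : u ∈ b.radical := by
    rw [← MvPolynomial.vanishingIdeal_zeroLocus_eq_radical (K := ℂ), mem_vanishingIdeal_iff]
    intro x hx
    have hx' : x ∈ cone b := by
      intro g hg
      have := (mem_zeroLocus_iff.1 hx) g hg
      rwa [aeval_eq_eval] at this
    have := h x hx'
    subst this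
    rw [aeval_eq_eval]
    exact eval_zero_form le_rfl hu
  obtain ⟨M, hM⟩ := hu0
  refine ⟨M, fun m hm => ?_⟩
  obtain ⟨j, rfl⟩ := Nat.exists_eq_add_of_le hm
  rw [pow_add]
  exact Ideal.mul_mem_right _ _ hM

/-- A linear form regular modulo `PP f`. -/
theorem depth_one {f : K → MvPolynomial σ ℂ} {d : K → ℕ} (h : CIx f d) :
    ∃ u₀ : MvPolynomial σ ℂ, u₀.IsHomogeneous 1 ∧ (∀ k a, u₀ ^ k * a ∈ PP f → a ∈ PP f) := by
  let φ : Fin (Fintype.card K) ≃ K := (Fintype.equivFin K).symm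
  have hr : Set.range (fun i => f (φ i)) = Set.range f := φ.surjective.range_comp f
  have hbig := h.big
  obtain ⟨u, hu, hreg, -⟩ := cm_gen (q := 1) (fun i => f (φ i))
    (fun i => ⟨d (φ i), h.pos _, h.hom _⟩)
    (by
      intro Q hQ hf
      apply h.codim Q hQ
      intro k
      have := hf (φ.symm k)
      rwa [Equiv.apply_symm_apply] at this)
    (by omega)
  rw [hr] at hreg
  change ∀ j a, u j * a ∈ PP f ⊔ Ideal.span (u '' {i | i < j}) →
    a ∈ PP f ⊔ Ideal.span (u '' {i | i < j}) at hreg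
  have hreg0 : ∀ a, u 0 * a ∈ PP f → a ∈ PP f := by
    intro a ha
    have h1 := hreg 0 a (Ideal.mem_sup_left ha)
    have h2 : u '' {i | i < (0 : Fin 1)} = (∅ : Set (MvPolynomial σ ℂ)) := by
      ext p
      simp
    rw [h2, Ideal.span_empty, sup_bot_eq] at h1
    exact h1
  exact ⟨u 0, hu 0, fun k a ha => pow_reg hreg0 k a ha⟩

/-- D4: an element which lies in `PP f` locally at all points of the complete intersection. -/
theorem sat_one {f : K → MvPolynomial σ ℂ} {d : K → ℕ} (h : CIx f d) {a : MvPolynomial σ ℂ}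
    (ha : ∀ x, Y f x → Loc x (PP f) a) : a ∈ PP f := by
  obtain ⟨u, hu, hreg⟩ := depth_one h
  set B : Ideal (MvPolynomial σ ℂ) :=
    Submodule.comap (LinearMap.mulRight (MvPolynomial σ ℂ) a) (PP f) with hB
  have hBm : ∀ b, b ∈ B ↔ b * a ∈ PP f := by
    intro b
    rw [hB]
    rfl
  obtain ⟨k, hk⟩ := pow_mem_of_cone (b := B) (by
    intro x hx
    by_contra hx0
    by_cases hY : Y f x
    · obtain ⟨w, hw, hwa⟩ := ha x hY
      exact hw (hx w ((hBm w).2 hwa))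
    · apply hY
      refine ⟨hx0, fun k => hx _ ?_⟩
      rw [hBm]
      exact Ideal.mul_mem_right _ _ (Ideal.subset_span ⟨k, rfl⟩)) hu
  exact hreg k a ((hBm _).1 (hk k le_rfl))

/-- D5: gluing. -/
theorem glue [Nonempty K] {f : K → MvPolynomial σ ℂ} {d : K → ℕ} (h : CIx f d) {M : Type*}
    (D : Submodule (MvPolynomial σ ℂ) (MvPolynomial σ ℂ × (M → MvPolynomial σ ℂ)))
    (h1 : ∀ b, ((0 : MvPolynomial σ ℂ), b) ∈ D → ∀ m, b m ∈ PP f)
    (h2 : ∀ x, Y f x → ∃ p ∈ D, eval x p.1 ≠ 0) :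
    ∃ t : M → MvPolynomial σ ℂ, ∀ p ∈ D, ∀ m, p.2 m - p.1 * t m ∈ PP f := by
  obtain ⟨u₀, u₁, hu₀, hu₁, r0, r1⟩ := depth_two h
  set B : Ideal (MvPolynomial σ ℂ) :=
    Submodule.map (LinearMap.fst (MvPolynomial σ ℂ) (MvPolynomial σ ℂ)
      (M → MvPolynomial σ ℂ)) D ⊔ PP f with hB
  have hcone : ∀ x ∈ cone B, x = 0 := by
    intro x hx
    by_contra hx0
    by_cases hY : Y f x
    · obtain ⟨p, hp, hpx⟩ := h2 x hY
      apply hpx
      apply hx
      exact Submodule.mem_sup_left ⟨p, hp, rfl⟩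
    · apply hY
      refine ⟨hx0, fun k => hx _ ?_⟩
      exact Submodule.mem_sup_right (Ideal.subset_span ⟨k, rfl⟩)
  obtain ⟨k₀, hk₀⟩ := pow_mem_of_cone hcone hu₀
  obtain ⟨k₁, hk₁⟩ := pow_mem_of_cone hcone hu₁
  have hmem : ∀ a ∈ B, ∃ p ∈ D, a - p.1 ∈ PP f := by
    intro a ha
    obtain ⟨y, hy, q, hq, rfl⟩ := Submodule.mem_sup.1 ha
    obtain ⟨p, hp, rfl⟩ := hy
    exact ⟨p, hp, by simpa using hq⟩
  obtain ⟨⟨a₀, β₀⟩, hp₀, hq₀⟩ := hmem _ (hk₀ k₀ le_rfl)
  obtain ⟨⟨a₁, β₁⟩, hp₁, hq₁⟩ := hmem _ (hk₁ k₁ le_rfl)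
  simp only at hq₀ hq₁
  have cross : ∀ (a a' : MvPolynomial σ ℂ) (b b' : M → MvPolynomial σ ℂ), (a, b) ∈ D →
      (a', b') ∈ D → ∀ m, a' * b m - a * b' m ∈ PP f := by
    intro a a' b b' hD hD' m
    have h3 : ((0 : MvPolynomial σ ℂ), fun m => a' * b m - a * b' m) ∈ D := by
      have h4 := D.sub_mem (D.smul_mem a' hD) (D.smul_mem a hD')
      have h5 : a' • (a, b) - a • (a', b') =
          ((0 : MvPolynomial σ ℂ), fun m => a' * b m - a * b' m) := by
        refine Prod.ext ?_ ?_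
        · simp only [Prod.fst_sub, Prod.smul_fst, smul_eq_mul]
          ring
        · funext m
          simp [Prod.snd_sub, Prod.smul_snd, smul_eq_mul]
      rw [h5] at h4
      exact h4
    exact h1 _ h3 m
  have ht : ∀ m, ∃ t, β₀ m - u₀ ^ k₀ * t ∈ PP f := by
    intro m
    have h3 := cross _ _ _ _ hp₀ hp₁ m
    have h4 : u₁ ^ k₁ * β₀ m ∈ PP f ⊔ Ideal.span {u₀ ^ k₀} := by
      rw [mem_sup_span]
      refine ⟨u₁ ^ k₁ * β₀ m - u₀ ^ k₀ * β₁ m, ?_, β₁ m, by ring⟩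
      have h5 : u₁ ^ k₁ * β₀ m - u₀ ^ k₀ * β₁ m =
          (u₁ ^ k₁ - a₁) * β₀ m - (u₀ ^ k₀ - a₀) * β₁ m + (a₁ * β₀ m - a₀ * β₁ m) := by ring
      rw [h5]
      exact add_mem (sub_mem (Ideal.mul_mem_right _ _ hq₁) (Ideal.mul_mem_right _ _ hq₀)) h3
    obtain ⟨p, hp, t, ht⟩ := mem_sup_span.1 (r1 k₀ k₁ _ h4)
    exact ⟨t, by rw [ht]; simpa using hp⟩
  choose t ht using ht
  refine ⟨t, ?_⟩
  rintro ⟨a, b⟩ hD m
  simp only
  apply r0 k₀
  have h3 := cross _ _ _ _ hD hp₀ m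
  have h4 : u₀ ^ k₀ * (b m - a * t m) =
      (u₀ ^ k₀ - a₀) * b m + (a₀ * b m - a * β₀ m) + a * (β₀ m - u₀ ^ k₀ * t m) := by ring
  rw [h4]
  exact add_mem (add_mem (Ideal.mul_mem_right _ _ hq₀) h3) (Ideal.mul_mem_left _ _ (ht m))

/-- D6: there are nonzero points on the complete intersection. -/
theorem exists_Y {f : K → MvPolynomial σ ℂ} {d : K → ℕ} (h : CIx f d) : ∃ x, Y f x := by
  have hbig := h.big
  obtain ⟨P, hP, hfP, -, hdim⟩ := comp_abs f (fun k => ⟨d k, h.hom k⟩) (q := (0 : σ → ℂ))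
    (fun k => eval_zero_form (h.pos k) (h.hom k))
  obtain ⟨x, hx, hx0, -⟩ := ne_zero_of_dm hP (β := Empty) (fun b => b.elim) (fun b => b.elim)
    (by rw [Fintype.card_eq_zero]; omega)
  exact ⟨x, hx0, fun k => hx _ (hfP k)⟩

end

end H71.CI
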