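import Pool.Agent.H71.CI.Defs

/-!
# Powers of the complete intersection ideal, locally (module L1)
-/

open MvPolynomial

set_option linter.unusedSectionVars false
set_option linter.unusedVariables false

namespace H71.CI

open H89.Hart H94.Cubic H94.Deg

lemma sup_pow_le {A : Type*} [CommRing A] (I b : Ideal A) (a : ℕ) : (I ⊔ b) ^ a ≤ I ⊔ b ^ a := by
  induction a with
  | zero =>
    rw [pow_zero, pow_zero]
    exact le_sup_right
  | succ a ih =>
    rw [pow_succ]
    rw [Ideal.mul_le]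
    intro y hy z hz
    obtain ⟨y1, hy1, y2, hy2, rfl⟩ := Submodule.mem_sup.1 (ih hy)
    obtain ⟨z1, hz1, z2, hz2, rfl⟩ := Submodule.mem_sup.1 hz
    have h1 : (y1 + y2) * (z1 + z2) = (y1 * (z1 + z2) + y2 * z1) + y2 * z2 := by ring
    rw [h1, pow_succ]
    refine Submodule.add_mem_sup ?_ (Ideal.mul_mem_mul hy2 hz2)
    exact I.add_mem (I.mul_mem_right _ hy1) (I.mul_mem_left _ hz1)

section

variable {σ : Type*} [Fintype σ] [DecidableEq σ] {K : Type*} [Fintype K] [DecidableEq K]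

/-- L1: on the complete intersection `PP f` is generated by `I` and the `f i`, `i ∉ J`. -/
theorem loc_pow {I : Ideal (MvPolynomial σ ℂ)} {r : ℕ} {f : K → MvPolynomial σ ℂ} {d : K → ℕ}
    (h : Ctx I r f d) {J : Finset K} {x : σ → ℂ} (hx : Y f x)
    {g : K → K → MvPolynomial σ ℂ} (hg : Pivot I f J x g) {a : ℕ} {G : MvPolynomial σ ℂ}
    (hG : Loc x (I ⊔ PP f ^ a) G) :
    ∃ (u : MvPolynomial σ ℂ) (F : MvPolynomial {k // k ∉ J} (MvPolynomial σ ℂ)),
      eval x u ≠ 0 ∧ F.IsHomogeneous a ∧ u * G - eval (fun k : {k // k ∉ J} => f k) F ∈ I := by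
  classical
  set b : Ideal (MvPolynomial σ ℂ) :=
    Ideal.span (Set.range fun k : {k // k ∉ J} => f k) with hb
  let M : Matrix {k // k ∈ J} {k // k ∈ J} (MvPolynomial σ ℂ) :=
    Matrix.of fun l j => g l.1 j.1
  have hM : eval x M.det = 1 := by
    rw [RingHom.map_det]
    have : (eval x).mapMatrix M = 1 := by
      funext l j
      change eval x (g l.1 j.1) = (1 : Matrix {k // k ∈ J} {k // k ∈ J} ℂ) l j
      rw [Matrix.one_apply, hg.2 l.1 l.2 j.1 j.2]
      by_cases hlj : l = j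
      · rw [if_pos hlj, if_pos (congrArg Subtype.val hlj)]
      · rw [if_neg hlj, if_neg fun h => hlj (Subtype.ext h)]
    rw [this, Matrix.det_one]
  -- the forms `f j` with `j ∈ J`
  have hsplit : ∀ l : {k // k ∈ J},
      (∑ j : {k // k ∈ J}, M l j * f j.1) ∈ I ⊔ b := by
    intro l
    have h1 := hg.1 l.1
    rw [mem_HH] at h1
    have h2 : ∑ j : {k // k ∈ J}, M l j * f j.1 + ∑ i ∈ Jᶜ, g l.1 i * f i =
        ∑ k, g l.1 k * f k := by
      rw [← Finset.sum_add_sum_compl J fun k => g l.1 k * f k]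
      congr 1
      exact Finset.sum_coe_sort J fun k => g l.1 k * f k
    have h3 : ∑ i ∈ Jᶜ, g l.1 i * f i ∈ b :=
      Ideal.sum_mem _ fun i hi => b.mul_mem_left _
        (Ideal.subset_span ⟨⟨i, Finset.mem_compl.1 hi⟩, rfl⟩)
    rw [← eq_sub_iff_add_eq] at h2
    rw [h2]
    exact Ideal.sub_mem _ (Ideal.mem_sup_left h1) (Ideal.mem_sup_right h3)
  have hdet : ∀ j : {k // k ∈ J}, M.det * f j.1 ∈ I ⊔ b := by
    intro j
    have h1 : M.adjugate.mulVec (M.mulVec fun j : {k // k ∈ J} => f j.1) j = M.det * f j.1 := by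
      rw [Matrix.mulVec_mulVec, Matrix.adjugate_mul, Matrix.smul_mulVec, Matrix.one_mulVec]
      rfl
    rw [← h1, Matrix.mulVec, dotProduct]
    exact Ideal.sum_mem _ fun l _ => Ideal.mul_mem_left _ _ (hsplit l)
  have hPP : Ideal.span {M.det} * PP f ≤ I ⊔ b := by
    rw [PP, Ideal.span_mul_span', Ideal.span_le]
    rintro _ ⟨_, hu, _, ⟨k, rfl⟩, rfl⟩
    rw [Set.mem_singleton_iff] at hu
    subst hu
    by_cases hk : k ∈ J
    · exact hdet ⟨k, hk⟩
    · exact Ideal.mem_sup_right (b.mul_mem_left _ (Ideal.subset_span ⟨⟨k, hk⟩, rfl⟩))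
  have hpow : ∀ p ∈ PP f ^ a, M.det ^ a * p ∈ I ⊔ b ^ a := by
    intro p hp
    refine sup_pow_le I b a (Ideal.pow_right_mono hPP a ?_)
    rw [mul_pow, Ideal.span_singleton_pow]
    exact Ideal.mul_mem_mul (Ideal.mem_span_singleton_self _) hp
  obtain ⟨u₀, hu₀, hmem⟩ := hG
  rw [Submodule.mem_sup] at hmem
  obtain ⟨i, hi, p, hp, hip⟩ := hmem
  have h1 := hpow p hp
  rw [Submodule.mem_sup] at h1
  obtain ⟨i', hi', b', hb', hib⟩ := h1
  rw [hb, Ideal.mem_span_pow_iff_exists_isHomogeneous] at hb'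
  obtain ⟨F, hF, hFe⟩ := hb'
  refine ⟨M.det ^ a * u₀, F, ?_, hF, ?_⟩
  · rw [map_mul, map_pow, hM, one_pow, one_mul]
    exact hu₀
  · rw [hFe]
    have h2 : M.det ^ a * u₀ * G - b' = M.det ^ a * i + i' := by
      rw [mul_assoc, ← hip, mul_add, ← hib]
      ring
    rw [h2]
    exact I.add_mem (I.mul_mem_left _ hi) hi'

end

end H71.CI
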