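import Pool.Agent.H71.CI.Defs

/-!
# Powers of `PP f` in small degrees, and Krull's theorem (helper6)
-/

open MvPolynomial

set_option linter.unusedSectionVars false
set_option linter.unusedVariables false

namespace H71.CI

open H89.Hart H94.Cubic H94.Deg

section

variable {σ : Type*} [Fintype σ] [DecidableEq σ] {K : Type*} [Fintype K] [DecidableEq K]

/-- the polynomials without terms of degree less than `a` -/
noncomputable def extB_J (σ : Type*) (a : ℕ) : Ideal (MvPolynomial σ ℂ) where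
  carrier := {g | ∀ s, coeff s g ≠ 0 → a ≤ s.degree}
  add_mem' := by
    intro g h hg hh s hs
    by_cases h1 : coeff s g = 0
    · refine hh s fun h2 => hs ?_
      rw [coeff_add, h1, h2, add_zero]
    · exact hg s h1
  zero_mem' := fun s hs => absurd (coeff_zero s) hs
  smul_mem' := by
    classical
    intro c g hg s hs
    have h1 : s ∈ (c * g).support := mem_support_iff.2 hs
    obtain ⟨s1, _, s2, hs2, h2⟩ := Finset.mem_add.1 (support_mul c g h1)
    have h3 := hg s2 (mem_support_iff.1 hs2)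
    rw [← h2, map_add]
    omega

lemma extB_mem {a : ℕ} {g : MvPolynomial σ ℂ} :
    g ∈ extB_J σ a ↔ ∀ s, coeff s g ≠ 0 → a ≤ s.degree := Iff.rfl

lemma extB_mul {a b : ℕ} {g h : MvPolynomial σ ℂ} (hg : g ∈ extB_J σ a) (hh : h ∈ extB_J σ b) :
    g * h ∈ extB_J σ (a + b) := by
  classical
  intro s hs
  have h1 : s ∈ (g * h).support := mem_support_iff.2 hs
  obtain ⟨s1, hs1, s2, hs2, h2⟩ := Finset.mem_add.1 (support_mul g h h1)
  have h3 := hg s1 (mem_support_iff.1 hs1)
  have h4 := hh s2 (mem_support_iff.1 hs2)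
  rw [← h2, map_add]
  omega

lemma extB_deg {g : MvPolynomial σ ℂ} {n : ℕ} (hg : g.IsHomogeneous n) {s : σ →₀ ℕ}
    (hs : coeff s g ≠ 0) : s.degree = n := by
  rw [Finsupp.degree_eq_weight_one]
  exact hg hs

lemma extB_pow {f : K → MvPolynomial σ ℂ} {d : K → ℕ} (h : CIx f d) (a : ℕ) :
    PP f ^ a ≤ extB_J σ a := by
  induction a with
  | zero =>
    intro g _ s _
    exact Nat.zero_le _
  | succ a ih =>
    rw [pow_succ, Ideal.mul_le]
    intro x hx y hy
    refine extB_mul (ih hx) ?_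
    have h1 : PP f ≤ extB_J σ 1 := by
      unfold PP
      rw [Ideal.span_le]
      rintro _ ⟨k, rfl⟩ s hs
      rw [extB_deg (h.hom k) hs]
      exact h.pos k
    exact h1 hy

/-- L3: forms of small degree in the powers of `PP f`. -/
theorem eq_zero_of_pow {f : K → MvPolynomial σ ℂ} {d : K → ℕ} (h : CIx f d) {a e : ℕ}
    (hae : e < a) {q : MvPolynomial σ ℂ} (hq : q ∈ PP f ^ a) (hqe : q.IsHomogeneous e) :
    q = 0 := by
  ext s
  rw [coeff_zero]
  by_contra hs
  have h1 := extB_pow h a hq s hs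
  rw [extB_deg hqe hs] at h1
  omega

/-- L4: Krull. -/
theorem mem_of_all {I : Ideal (MvPolynomial σ ℂ)} {r : ℕ} {f : K → MvPolynomial σ ℂ} {d : K → ℕ}
    (h : Ctx I r f d) {x : σ → ℂ} (hx : Y f x) {G : MvPolynomial σ ℂ}
    (hG : ∀ a, Loc x (I ⊔ PP f ^ a) G) : G ∈ I := by
  have hPm : PP f ≤ mI x := by
    unfold PP
    rw [Ideal.span_le]
    rintro _ ⟨k, rfl⟩
    exact mem_mI.2 (hx.2 k)
  have hstep : ∀ a : ℕ, G ∈ I ⊔ mI x ^ a := by
    intro a
    obtain ⟨u, hu, hb⟩ := hG a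
    have h1 : u * G ∈ I ⊔ mI x ^ a :=
      (sup_le_sup le_rfl (Ideal.pow_right_mono hPm a) : I ⊔ PP f ^ a ≤ I ⊔ mI x ^ a) hb
    set t : MvPolynomial σ ℂ := 1 - C ((eval x u)⁻¹) * u with ht
    have htm : t ∈ mI x := by
      rw [mem_mI, ht, map_sub, map_one, map_mul, eval_C, inv_mul_cancel₀ hu, sub_self]
    obtain ⟨w, hw⟩ := one_sub_dvd_one_sub_pow t a
    have e1 : G = t ^ a * G + C ((eval x u)⁻¹) * w * (u * G) := by
      have e2 : 1 - t = C ((eval x u)⁻¹) * u := by rw [ht]; ring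
      rw [e2] at hw
      calc G = t ^ a * G + (1 - t ^ a) * G := by ring
        _ = t ^ a * G + C ((eval x u)⁻¹) * w * (u * G) := by rw [hw]; ring
    rw [e1]
    exact Ideal.add_mem _ (Ideal.mem_sup_right (Ideal.mul_mem_right _ _ (Ideal.pow_mem_pow htm a)))
      (Ideal.mul_mem_left _ _ h1)
  have hmem : (Ideal.Quotient.mk I G) ∈
      (⨅ i : ℕ, mI x ^ i • ⊤ : Submodule (MvPolynomial σ ℂ) (MvPolynomial σ ℂ ⧸ I)) := by
    rw [Submodule.mem_iInf]
    intro i
    obtain ⟨j, hj, f', hf', hsum⟩ := Submodule.mem_sup.1 (hstep i)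
    have : Ideal.Quotient.mk I G = f' • (1 : MvPolynomial σ ℂ ⧸ I) := by
      rw [← hsum, map_add, Ideal.Quotient.eq_zero_iff_mem.2 hj, zero_add]
      change Ideal.Quotient.mk I f' = Ideal.Quotient.mk I (f' * 1)
      rw [mul_one]
    rw [this]
    exact Submodule.smul_mem_smul hf' trivial
  obtain ⟨⟨q, hq⟩, hqh⟩ := (Ideal.mem_iInf_smul_pow_eq_bot_iff (mI x) _).1 hmem
  have h2 : (1 - q) * G ∈ I := by
    rw [← Ideal.Quotient.eq_zero_iff_mem, map_mul, map_sub, map_one, sub_mul, one_mul]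
    have : (Ideal.Quotient.mk I q) * (Ideal.Quotient.mk I G) = Ideal.Quotient.mk I G := by
      rw [← map_mul]; exact hqh
    rw [this, sub_self]
  rcases h.prime.mem_or_mem h2 with h3 | h3
  · exfalso
    have h4 := mem_mI.1 (hPm (h.sub h3))
    rw [map_sub, map_one, mem_mI.1 hq, sub_zero] at h4
    exact one_ne_zero h4
  · exact h3

end

end H71.CI
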