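import Pool.Agent.H71.CI.Defs

/-!
# Local equations at a nonsingular point
-/

open MvPolynomial

set_option linter.unusedSectionVars false
set_option linter.unusedVariables false

namespace H71.CI

open H89.Hart H94.Cubic H94.Deg

section

variable {σ : Type*} [Fintype σ] [DecidableEq σ]

/-- E1: the rank of the differentials is at most the codimension. -/
theorem rank_le {I : Ideal (MvPolynomial σ ℂ)} {r : ℕ} (hI : I.IsPrime)
    (hdim : dm I + r = Fintype.card σ) {x : σ → ℂ} (hx : x ∈ cone I) :
    Module.finrank ℂ (N I x) ≤ r := by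
  have h1 := Submodule.exists_fun_fin_finrank_span_eq ℂ
    ((N I x : Submodule ℂ (σ → ℂ)) : Set (σ → ℂ))
  rw [Submodule.span_eq] at h1
  obtain ⟨v, hv, -, hvli⟩ := h1
  have h2 : ∀ l, ∃ G ∈ I, dif G x = v l := fun l => mem_N.1 (hv l)
  choose G hG hGv using h2
  have hli : LinearIndependent ℂ (fun l => dif (G l) x) := by
    rw [show (fun l => dif (G l) x) = v from funext hGv]
    exact hvli
  have h3 := dim_add_le I hI x hx G hG hli
  rw [dm_eq hI, Fintype.card_fin] at h3
  have h4 : dm I + Module.finrank ℂ (N I x) ≤ Fintype.card σ := by exact_mod_cast h3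
  omega

theorem L0s_fin {I : Ideal (MvPolynomial σ ℂ)} {r : ℕ} (hI : I.IsPrime)
    (hdim : dm I + r = Fintype.card σ) (g : Fin r → MvPolynomial σ ℂ) (hg : ∀ i, g i ∈ I)
    {p : σ → ℂ} (hp : p ∈ cone I) (hli : LinearIndependent ℂ (fun i => dif (g i) p))
    {h : MvPolynomial σ ℂ} (hh : h ∈ I) :
    ∃ u, eval p u ≠ 0 ∧ u * h ∈ Ideal.span (Set.range g) := by
  obtain ⟨l, hl⟩ := exists_dual _ hli
  have hmat : matAt g l p = 1 := by
    ext i j; rw [matAt, Matrix.of_apply, hl, Matrix.one_apply]
  have hdet : (matAt g l p).det ≠ 0 := by rw [hmat]; simp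
  refine L0_abs g hg l hp hdet (fun f hf v => ?_) hh
  have hD : (mat g l).det ∉ I := fun hm => hdet (by rw [← eval_det_mat]; exact hp _ hm)
  have key : (mat g l).det * Q g l f v ∈ I := by
    apply mem_of_cone hI
    intro x hx
    rw [map_mul]
    by_cases hd : (matAt g l x).det = 0
    · rw [eval_det_mat, hd, zero_mul]
    have hlix := li_of_det g l x hd
    have hle : Submodule.span ℂ (Set.range fun i => dif (g i) x) ≤ N I x := by
      rw [Submodule.span_le]
      rintro _ ⟨i, rfl⟩
      exact mem_N.2 ⟨g i, hg i, rfl⟩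
    have hspan : Submodule.span ℂ (Set.range fun i => dif (g i) x) = N I x := by
      apply Submodule.eq_of_le_of_finrank_le hle
      rw [finrank_span_eq_card hlix, Fintype.card_fin]
      exact rank_le hI hdim hx
    have hmem : dif f x ∈ Submodule.span ℂ (Set.range fun i => dif (g i) x) := by
      rw [hspan]; exact mem_N.2 ⟨f, hf, rfl⟩
    have := cramer_id (fun i => dif (g i) x) l (matAt g l x) (fun i j => rfl) _ hmem
    rw [eval_Q, this, sub_self, zero_dotProduct, mul_zero]
  exact (hI.mem_or_mem key).resolve_left hD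

/-- E2: local equations at a nonsingular point (`L0` without smoothness elsewhere). -/
theorem L0s {I : Ideal (MvPolynomial σ ℂ)} {r : ℕ} (hI : I.IsPrime)
    (hdim : dm I + r = Fintype.card σ) {A : Type*} [Fintype A] (hA : Fintype.card A = r)
    (g : A → MvPolynomial σ ℂ) (hg : ∀ i, g i ∈ I) {p : σ → ℂ} (hp : p ∈ cone I) (hp0 : p ≠ 0)
    (hli : LinearIndependent ℂ (fun i => dif (g i) p)) {h : MvPolynomial σ ℂ} (hh : h ∈ I) :
    Loc p (Ideal.span (Set.range g)) h := by
  subst hA
  let e := Fintype.equivFin A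
  obtain ⟨u, hu, hm⟩ := L0s_fin hI hdim (fun i => g (e.symm i)) (fun i => hg _) hp
    (hli.comp _ e.symm.injective) hh
  refine ⟨u, hu, ?_⟩
  have : Set.range (fun i => g (e.symm i)) = Set.range g := e.symm.surjective.range_comp g
  rwa [this] at hm

end

end H71.CI
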