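import Pool.Agent.H71.CI.Defs

/-!
# Quasi-regular families: linear transformations, localization, reindexing (helper6)
-/

open MvPolynomial

set_option linter.unusedSectionVars false
set_option linter.unusedVariables false

namespace H71.CI

private lemma qm2_sup {A : Type*} [CommRing A] (I : Ideal A) : (⊥ : Ideal A) ⊔ I = I := bot_sup_eq I

/-- substitution of linear forms -/
private lemma qm2_comp {A : Type*} [CommRing A] {K L : Type*} [Fintype K] [Fintype L]
    [DecidableEq K] [DecidableEq L] (M : Matrix L K A) (M' : Matrix K L A) (h1 : M * M' = 1)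
    (F : MvPolynomial L A) :
    aeval (fun k => ∑ l, C (M' k l) * (X l : MvPolynomial L A))
      (aeval (fun l => ∑ k, C (M l k) * (X k : MvPolynomial K A)) F) = F := by
  have h2 : ((aeval (fun k => ∑ l, C (M' k l) * (X l : MvPolynomial L A))).comp
      (aeval (fun l => ∑ k, C (M l k) * (X k : MvPolynomial K A))) :
      MvPolynomial L A →ₐ[A] MvPolynomial L A) = AlgHom.id A _ := by
    apply MvPolynomial.algHom_ext
    intro l
    rw [AlgHom.comp_apply, aeval_X, map_sum, AlgHom.id_apply]
    have h3 : ∀ k, (aeval (fun k => ∑ l, C (M' k l) * (X l : MvPolynomial L A)))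
        (C (M l k) * (X k : MvPolynomial K A)) = ∑ l', C (M l k * M' k l') * X l' := by
      intro k
      rw [map_mul, aeval_X]
      have h4 : (aeval (fun k => ∑ l, C (M' k l) * (X l : MvPolynomial L A)))
          (C (M l k) : MvPolynomial K A) = C (M l k) := by
        rw [aeval_C]
        rfl
      rw [h4, Finset.mul_sum]
      refine Finset.sum_congr rfl fun l' _ => ?_
      rw [map_mul, mul_assoc]
    rw [Finset.sum_congr rfl fun k _ => h3 k, Finset.sum_comm]
    have h5 : ∀ l', ∑ k, C (M l k * M' k l') * (X l' : MvPolynomial L A)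
        = C ((1 : Matrix L L A) l l') * X l' := by
      intro l'
      rw [← Finset.sum_mul, ← map_sum, ← h1]
      rfl
    rw [Finset.sum_congr rfl fun l' _ => h5 l', Finset.sum_eq_single l]
    · rw [Matrix.one_apply_eq, map_one, one_mul]
    · intro l' _ hl
      rw [Matrix.one_apply_ne (Ne.symm hl), map_zero, zero_mul]
    · intro h
      exact absurd (Finset.mem_univ l) h
  exact DFunLike.congr_fun h2 F

private lemma qm2_eval {A : Type*} [CommRing A] {K L : Type*} [Fintype K]
    (a : K → A) (M : Matrix L K A) (F : MvPolynomial L A) :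
    eval a (aeval (fun l => ∑ k, C (M l k) * (X k : MvPolynomial K A)) F)
      = eval (fun l => ∑ k, M l k * a k) F := by
  have h : (aeval a : MvPolynomial K A →ₐ[A] A).comp
      (aeval (fun l => ∑ k, C (M l k) * (X k : MvPolynomial K A)))
      = aeval (fun l => ∑ k, M l k * a k) := by
    apply MvPolynomial.algHom_ext
    intro l
    rw [AlgHom.comp_apply, aeval_X, aeval_X, map_sum]
    refine Finset.sum_congr rfl fun k _ => ?_
    rw [map_mul, aeval_X, ← MvPolynomial.algebraMap_eq, AlgHom.commutes]
    rfl
  have h2 := DFunLike.congr_fun h F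
  rw [AlgHom.comp_apply] at h2
  exact h2

/-- C3: invertible linear transformations. -/
theorem QR_trans {A : Type*} [CommRing A] {K L : Type*} [Fintype K] [Fintype L] [DecidableEq K]
    [DecidableEq L] (a : K → A) (M : Matrix L K A) (M' : Matrix K L A) (h1 : M * M' = 1)
    (h2 : M' * M = 1) (h : QR ⊥ a) : QR ⊥ (fun l => ∑ k, M l k * a k) := by
  have hJ : Ideal.span (Set.range fun l => ∑ k, M l k * a k) = Ideal.span (Set.range a) := by
    apply le_antisymm
    · rw [Ideal.span_le]
      rintro _ ⟨l, rfl⟩
      exact Ideal.sum_mem _ fun k _ => Ideal.mul_mem_left _ _ (Ideal.subset_span ⟨k, rfl⟩)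
    · rw [Ideal.span_le]
      rintro _ ⟨k, rfl⟩
      have h3 : a k = ∑ l, M' k l * ∑ k', M l k' * a k' := by
        have h4 : a k = ∑ k', (M' * M) k k' * a k' := by
          rw [h2, Finset.sum_eq_single k]
          · rw [Matrix.one_apply_eq, one_mul]
          · intro k' _ hk
            rw [Matrix.one_apply_ne (Ne.symm hk), zero_mul]
          · intro h0
            exact absurd (Finset.mem_univ k) h0
        conv_lhs => rw [h4]
        simp only [Matrix.mul_apply, Finset.sum_mul, Finset.mul_sum]
        rw [Finset.sum_comm]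
        refine Finset.sum_congr rfl fun l _ => Finset.sum_congr rfl fun k' _ => ?_
        rw [mul_assoc]
      change a k ∈ Ideal.span (Set.range fun l => ∑ k, M l k * a k)
      rw [h3]
      exact Ideal.sum_mem _ fun l _ => Ideal.mul_mem_left _ _ (Ideal.subset_span ⟨l, rfl⟩)
  intro ν F hF hev m
  rw [hJ] at hev ⊢
  set F' : MvPolynomial K A := aeval (fun l => ∑ k, C (M l k) * (X k : MvPolynomial K A)) F
    with hF'
  have hF'h : F'.IsHomogeneous ν := by
    have h3 : F'.IsHomogeneous (1 * ν) := by
      refine IsHomogeneous.aeval hF _ fun l => ?_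
      exact IsHomogeneous.sum _ _ _ fun k _ => isHomogeneous_C_mul_X _ _
    rwa [one_mul] at h3
  have h4 := h ν F' hF'h (by rw [hF', qm2_eval]; exact hev)
  rw [qm2_sup] at h4 ⊢
  have h5 : F' ∈ Ideal.map (C : A →+* MvPolynomial K A) (Ideal.span (Set.range a)) :=
    mem_map_C_iff.2 h4
  have h6 : aeval (fun k => ∑ l, C (M' k l) * (X l : MvPolynomial L A)) F'
      ∈ Ideal.map (C : A →+* MvPolynomial L A) (Ideal.span (Set.range a)) := by
    have h7 := Ideal.mem_map_of_mem
      (aeval (fun k => ∑ l, C (M' k l) * (X l : MvPolynomial L A))).toRingHom h5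
    rw [Ideal.map_map] at h7
    have h8 : (aeval (fun k => ∑ l, C (M' k l) * (X l : MvPolynomial L A))).toRingHom.comp
        (C : A →+* MvPolynomial K A) = (C : A →+* MvPolynomial L A) := by
      ext r
      change _ = coeff _ (C r)
      rw [RingHom.comp_apply]
      congr 1
      change aeval (fun k => ∑ l, C (M' k l) * (X l : MvPolynomial L A)) (C r) = C r
      rw [aeval_C]
      rfl
    rw [h8] at h7
    exact h7
  rw [hF', qm2_comp M M' h1 F] at h6
  exact mem_map_C_iff.1 h6 m

/-- C4: localization. -/
theorem QR_loc {A B : Type*} [CommRing A] [CommRing B] [Algebra A B] (M : Submonoid A)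
    [IsLocalization M B] {T : Type*} [Finite T] (a : T → A) (h : QR ⊥ a) :
    QR ⊥ (fun t => algebraMap A B (a t)) := by
  classical
  intro ν F hF hev m
  rw [qm2_sup] at hev ⊢
  have hJ : Ideal.span (Set.range fun t => algebraMap A B (a t))
      = Ideal.map (algebraMap A B) (Ideal.span (Set.range a)) := by
    rw [Ideal.map_span, ← Set.range_comp]
    rfl
  rw [hJ] at hev ⊢
  rw [← Ideal.map_pow] at hev
  -- denominators
  obtain ⟨s, hs⟩ := IsLocalization.exist_integer_multiples M F.support fun m => coeff m F
  have hs' : ∀ m, ∃ r : A, m ∈ F.support → algebraMap A B r = algebraMap A B s * coeff m F := by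
    intro m
    by_cases hm : m ∈ F.support
    · obtain ⟨r, hr⟩ := hs m hm
      refine ⟨r, fun _ => ?_⟩
      rw [hr, Algebra.smul_def]
    · exact ⟨0, fun h0 => absurd h0 hm⟩
  choose r hr using hs'
  set F₁ : MvPolynomial T A := ∑ m ∈ F.support, monomial m (r m) with hF₁
  have hF₁h : F₁.IsHomogeneous ν := by
    refine IsHomogeneous.sum _ _ _ fun m hm => isHomogeneous_monomial _ ?_
    have h3 := hF (mem_support_iff.1 hm)
    rw [Finsupp.degree_eq_weight_one]
    exact h3
  have hmap : MvPolynomial.map (algebraMap A B) F₁ = C (algebraMap A B s) * F := by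
    rw [hF₁, map_sum]
    conv_rhs => rw [F.as_sum, Finset.mul_sum]
    refine Finset.sum_congr rfl fun m hm => ?_
    rw [map_monomial, hr m hm, C_mul_monomial]
  have hev1 : algebraMap A B (eval a F₁)
      = algebraMap A B s * eval (fun t => algebraMap A B (a t)) F := by
    have h3 : algebraMap A B (eval a F₁)
        = eval (fun t => algebraMap A B (a t)) (MvPolynomial.map (algebraMap A B) F₁) := by
      rw [eval_map, MvPolynomial.eval, coe_eval₂Hom, hom_eval₂, RingHom.comp_id]
    rw [h3, hmap, map_mul, eval_C]
  have hmem : algebraMap A B (eval a F₁)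
      ∈ Ideal.map (algebraMap A B) (Ideal.span (Set.range a) ^ (ν + 1)) := by
    rw [hev1]
    exact Ideal.mul_mem_left _ _ hev
  obtain ⟨⟨y, s'⟩, hy⟩ := (IsLocalization.mem_map_algebraMap_iff M B).1 hmem
  change algebraMap A B (eval a F₁) * algebraMap A B s' = algebraMap A B y at hy
  rw [← map_mul, IsLocalization.eq_iff_exists M B] at hy
  obtain ⟨s'', hs''⟩ := hy
  set F₂ : MvPolynomial T A := C ((s'' : A) * s') * F₁ with hF₂
  have hF₂h : F₂.IsHomogeneous ν := by
    have h3 := (isHomogeneous_C T ((s'' : A) * s')).mul hF₁h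
    rwa [zero_add] at h3
  have hev2 : eval a F₂ ∈ Ideal.span (Set.range a) ^ (ν + 1) := by
    have h3 : eval a F₂ = (s'' : A) * y := by
      rw [← hs'', hF₂, map_mul, eval_C]
      ring
    rw [h3]
    exact Ideal.mul_mem_left _ _ y.2
  have h4 := h ν F₂ hF₂h (by rw [qm2_sup]; exact hev2) m
  rw [qm2_sup] at h4
  by_cases hm : m ∈ F.support
  · have hc : coeff m F₁ = r m := by
      rw [hF₁, coeff_sum, Finset.sum_eq_single m]
      · rw [coeff_monomial, if_pos rfl]
      · intro m' _ hne
        rw [coeff_monomial, if_neg hne]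
      · intro h0
        exact absurd hm h0
    have h5 : algebraMap A B (coeff m F₂)
        = (algebraMap A B s'' * algebraMap A B s' * algebraMap A B s) * coeff m F := by
      rw [hF₂, coeff_C_mul, hc, map_mul, map_mul, hr m hm]
      ring
    have h6 := Ideal.mem_map_of_mem (algebraMap A B) h4
    rw [h5] at h6
    have hu : IsUnit (algebraMap A B s'' * algebraMap A B s' * algebraMap A B s) :=
      ((IsLocalization.map_units B s'').mul (IsLocalization.map_units B s')).mul
        (IsLocalization.map_units B s)
    exact (Ideal.unit_mul_mem_iff_mem _ hu).1 h6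
  · rw [notMem_support_iff.1 hm]
    exact Ideal.zero_mem _

/-- C5: reindexing. -/
theorem QR_equiv {A : Type*} [CommRing A] {c : Ideal A} {T T' : Type*} (e : T' ≃ T) (a : T → A)
    (h : QR c a) : QR c (fun t => a (e t)) := by
  intro ν F hF hev m
  have hr : Set.range (fun t => a (e t)) = Set.range a := e.surjective.range_comp a
  rw [hr] at hev ⊢
  have h1 := h ν (rename e F) (IsHomogeneous.rename_isHomogeneous hF) (by
    rw [eval_rename]
    exact hev) (m.mapDomain e)
  rwa [coeff_rename_mapDomain e e.injective] at h1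

end H71.CI
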