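import Pool.Agent.H71.CI.Defs
import Mathlib.RingTheory.MvPolynomial.Homogeneous
import Mathlib.Algebra.MvPolynomial.Division

/-!
# Regular sequences are quasi-regular
-/

open MvPolynomial

set_option linter.unusedSectionVars false
set_option linter.unusedVariables false

namespace H71.CI

section

variable {A : Type*} [CommRing A]

theorem eval_mem_of_coeff {T : Type*} (c : Ideal A) (a : T → A) (ν : ℕ) (F : MvPolynomial T A)
    (hF : F.IsHomogeneous ν) (h : ∀ m, coeff m F ∈ c) :
    eval a F ∈ c * Ideal.span (Set.range a) ^ ν := by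
  classical
  rw [eval_eq]
  refine Ideal.sum_mem _ fun d hd => Ideal.mul_mem_mul (h d) ?_
  refine (Ideal.mem_span_pow_iff_exists_isHomogeneous a _).2 ⟨monomial d 1, ?_, ?_⟩
  · refine isHomogeneous_monomial _ ?_
    have h1 := hF (mem_support_iff.1 hd)
    rw [← h1, Finsupp.degree_eq_weight_one]
    rfl
  · rw [eval_monomial, one_mul]
    rfl

theorem exists_of_mem_mul {T : Type*} (c : Ideal A) (a : T → A) (ν : ℕ) (z : A)
    (hz : z ∈ c * Ideal.span (Set.range a) ^ ν) :
    ∃ G : MvPolynomial T A, G.IsHomogeneous ν ∧ (∀ m, coeff m G ∈ c) ∧ eval a G = z := by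
  refine Submodule.mul_induction_on hz ?_ ?_
  · intro x hx y hy
    obtain ⟨p, hp, rfl⟩ := (Ideal.mem_span_pow_iff_exists_isHomogeneous a y).1 hy
    refine ⟨C x * p, by simpa using (isHomogeneous_C _ x).mul hp, fun m => ?_, by simp⟩
    rw [coeff_C_mul]
    exact c.mul_mem_right _ hx
  · rintro x y ⟨G, hG, hGc, rfl⟩ ⟨G', hG', hGc', rfl⟩
    refine ⟨G + G', hG.add hG', fun m => ?_, by simp⟩
    rw [coeff_add]
    exact c.add_mem (hGc m) (hGc' m)

theorem QR_of_QR0 {T : Type*} (c : Ideal A) (a : T → A)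
    (h : ∀ (ν : ℕ) (F : MvPolynomial T A), F.IsHomogeneous ν → eval a F ∈ c →
      ∀ m, coeff m F ∈ c ⊔ Ideal.span (Set.range a)) : QR c a := by
  intro ν F hF hev m
  obtain ⟨y, hy, z, hz, hyz⟩ := Submodule.mem_sup.1 hev
  rw [pow_succ'] at hz
  obtain ⟨G, hG, hGc, hGz⟩ := exists_of_mem_mul (Ideal.span (Set.range a)) a ν z hz
  have h1 := h ν (F - G) (hF.sub hG) (by rw [map_sub, hGz, ← hyz]; simpa using hy) m
  have h2 : coeff m F = coeff m (F - G) + coeff m G := by simp
  rw [h2]
  exact add_mem h1 (Ideal.mem_sup_right (hGc m))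

theorem sup_mul_pow_le (c J : Ideal A) (ν : ℕ) : (c ⊔ J) * J ^ ν ≤ c ⊔ J ^ (ν + 1) := by
  rw [Ideal.sup_mul, pow_succ']
  exact sup_le_sup Ideal.mul_le_left le_rfl

theorem pow_colon {T : Type*} (c : Ideal A) (a : T → A) (hQ : QR c a) (t : A)
    (ht : ∀ b, t * b ∈ c ⊔ Ideal.span (Set.range a) → b ∈ c ⊔ Ideal.span (Set.range a)) :
    ∀ (ν : ℕ) (x : A), t * x ∈ c ⊔ Ideal.span (Set.range a) ^ ν →
      x ∈ c ⊔ Ideal.span (Set.range a) ^ ν := by
  intro ν
  induction ν with
  | zero => intro x _; simp
  | succ ν ih =>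
    intro x hx
    have h1 : x ∈ c ⊔ Ideal.span (Set.range a) ^ ν :=
      ih x (sup_le_sup (le_refl c) (Ideal.pow_le_pow_right (Nat.le_succ ν)) hx)
    obtain ⟨y, hy, z, hz, rfl⟩ := Submodule.mem_sup.1 h1
    obtain ⟨G, hG, rfl⟩ := (Ideal.mem_span_pow_iff_exists_isHomogeneous a z).1 hz
    have h2 : ∀ m, coeff m (C t * G) ∈ c ⊔ Ideal.span (Set.range a) :=
      hQ ν (C t * G) (by simpa using (isHomogeneous_C _ t).mul hG) (by
        have h3 : eval a (C t * G) = t * (y + eval a G) - t * y := by
          rw [map_mul, eval_C]; ring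
        rw [h3]
        exact sub_mem hx (Ideal.mem_sup_left (c.mul_mem_left _ hy)))
    have h3 : ∀ m, coeff m G ∈ c ⊔ Ideal.span (Set.range a) := fun m => ht _ (by
      have := h2 m
      rwa [coeff_C_mul] at this)
    have h4 := eval_mem_of_coeff (c ⊔ Ideal.span (Set.range a)) a ν G hG h3
    exact add_mem (Ideal.mem_sup_left hy) (sup_mul_pow_le _ _ _ h4)

theorem hom_degree {T : Type*} {F : MvPolynomial T A} {ν : ℕ} (hF : F.IsHomogeneous ν)
    {m : T →₀ ℕ} (hm : coeff m F ≠ 0) : m.degree = ν := by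
  have h1 := hF hm
  rw [← h1, Finsupp.degree_eq_weight_one]
  rfl

/-- removing the last variable. -/
theorem split_last {n : ℕ} (ν : ℕ) (F : MvPolynomial (Fin (n + 1)) A) (hF : F.IsHomogeneous ν) :
    ∃ (G : MvPolynomial (Fin n) A) (H : MvPolynomial (Fin (n + 1)) A), G.IsHomogeneous ν ∧
      F = rename Fin.castSucc G + X (Fin.last n) * H ∧
      (∀ m, m (Fin.last n) = 0 → ∃ m', coeff m F = coeff m' G) ∧
      (∀ m, m (Fin.last n) ≠ 0 → ∃ m', coeff m F = coeff m' H) ∧
      (∀ m, coeff m H ≠ 0 → m.degree + 1 = ν) := by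
  classical
  set s : Fin (n + 1) →₀ ℕ := Finsupp.single (Fin.last n) 1 with hs
  have hsle : ∀ m : Fin (n + 1) →₀ ℕ, s ≤ m ↔ m (Fin.last n) ≠ 0 := by
    intro m
    rw [hs, Finsupp.single_le_iff]
    omega
  set G0 := F.modMonomial s with hG0
  set H := F.divMonomial s with hH
  have hvars : (G0.vars : Set (Fin (n + 1))) ⊆ Set.range (Fin.castSucc (n := n)) := by
    intro i hi
    rw [Finset.mem_coe, mem_vars] at hi
    obtain ⟨m, hm, hmi⟩ := hi
    have h1 : ¬ s ≤ m := by
      intro h
      exact (mem_support_iff.1 hm) (coeff_modMonomial_of_le F h)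
    rw [hsle, not_not] at h1
    have h2 : i ≠ Fin.last n := by
      rintro rfl
      exact (Finsupp.mem_support_iff.1 hmi) h1
    exact ⟨i.castPred h2, Fin.castSucc_castPred i h2⟩
  obtain ⟨G, hG⟩ := exists_rename_eq_of_vars_subset_range G0 (Fin.castSucc (n := n))
    (Fin.castSucc_injective n) hvars
  have hG0h : G0.IsHomogeneous ν := by
    intro m hm
    by_cases h : s ≤ m
    · exact absurd (coeff_modMonomial_of_le F h) hm
    · rw [coeff_modMonomial_of_not_le F h] at hm
      exact hF hm
  refine ⟨G, H, ?_, ?_, ?_, ?_, ?_⟩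
  · rw [← hG] at hG0h
    exact (IsHomogeneous.rename_isHomogeneous_iff (Fin.castSucc_injective n)).1 hG0h
  · rw [hG]
    exact (modMonomial_add_divMonomial_single F (Fin.last n)).symm
  · intro m hm
    have h1 : ¬ s ≤ m := by rw [hsle]; simpa using hm
    have h2 : coeff m F = coeff m G0 := (coeff_modMonomial_of_not_le F h1).symm
    by_cases h3 : coeff m G0 = 0
    · -- any coefficient zero: use a monomial of wrong degree, or the preimage
      by_cases h4 : ∃ u : Fin n →₀ ℕ, u.mapDomain Fin.castSucc = m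
      · obtain ⟨u, hu⟩ := h4
        refine ⟨u, ?_⟩
        rw [h2, ← hG, ← hu, coeff_rename_mapDomain _ (Fin.castSucc_injective n)]
      · exfalso
        apply h4
        refine ⟨m.comapDomain Fin.castSucc (Fin.castSucc_injective n).injOn, ?_⟩
        refine Finsupp.mapDomain_comapDomain _ (Fin.castSucc_injective n) m ?_
        intro i hi
        have h2 : i ≠ Fin.last n := by
          rintro rfl
          exact (Finsupp.mem_support_iff.1 hi) hm
        exact ⟨i.castPred h2, Fin.castSucc_castPred i h2⟩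
    · rw [← hG] at h3
      obtain ⟨u, hu, hu'⟩ := coeff_rename_ne_zero _ _ _ h3
      refine ⟨u, ?_⟩
      rw [h2, ← hG, ← hu, coeff_rename_mapDomain _ (Fin.castSucc_injective n)]
  · intro m hm
    refine ⟨m - s, ?_⟩
    rw [hH, coeff_divMonomial, add_tsub_cancel_of_le ((hsle m).2 hm)]
  · intro m hm
    rw [hH, coeff_divMonomial] at hm
    have h1 := hom_degree hF hm
    rw [← h1, map_add, hs, Finsupp.degree_single, add_comm]

theorem QR_step {n : ℕ} (c : Ideal A) (a : Fin (n + 1) → A)
    (hQ : QR c (fun i : Fin n => a i.castSucc))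
    (ht : ∀ b, a (Fin.last n) * b ∈ c ⊔ Ideal.span (Set.range fun i : Fin n => a i.castSucc) →
      b ∈ c ⊔ Ideal.span (Set.range fun i : Fin n => a i.castSucc)) : QR c a := by
  classical
  set a' : Fin n → A := fun i => a i.castSucc with ha'
  set J' : Ideal A := Ideal.span (Set.range a') with hJ'
  set J : Ideal A := Ideal.span (Set.range a) with hJ
  have hJJ : J' ≤ J := by
    rw [hJ', hJ]
    refine Ideal.span_mono ?_
    rintro _ ⟨i, rfl⟩
    exact ⟨i.castSucc, rfl⟩
  have htJ : a (Fin.last n) ∈ J := Ideal.subset_span ⟨_, rfl⟩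
  -- the statement with `J ^ (ν + 1)`, by induction
  have key : ∀ (ν : ℕ) (F : MvPolynomial (Fin (n + 1)) A), F.IsHomogeneous ν →
      eval a F ∈ c ⊔ J ^ (ν + 1) → ∀ m, coeff m F ∈ c ⊔ J := by
    intro ν
    induction ν with
    | zero =>
      intro F hF hev m
      have h0 : F = C (coeff 0 F) :=
        totalDegree_eq_zero_iff_eq_C.1 (Nat.le_zero.1 hF.totalDegree_le)
      rw [h0, eval_C, zero_add, pow_one] at hev
      rw [h0, coeff_C]
      split_ifs
      · exact hev
      · exact zero_mem _
    | succ ν ih =>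
      intro F0 hF0 hev0
      -- reduction to `eval a F ∈ c`
      obtain ⟨y, hy, z, hz, hyz⟩ := Submodule.mem_sup.1 hev0
      rw [pow_succ'] at hz
      obtain ⟨W, hW, hWc, hWz⟩ := exists_of_mem_mul J a (ν + 1) z hz
      set F := F0 - W with hFdef
      have hF : F.IsHomogeneous (ν + 1) := hF0.sub hW
      have hev : eval a F ∈ c := by
        rw [hFdef, map_sub, hWz, ← hyz]
        simpa using hy
      suffices hmain : ∀ m, coeff m F ∈ c ⊔ J by
        intro m
        have h2 : coeff m F0 = coeff m F + coeff m W := by rw [hFdef]; simp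
        rw [h2]
        exact add_mem (hmain m) (Ideal.mem_sup_right (hWc m))
      obtain ⟨G, H, hG, hFGH, hcG, hcH, hdeg⟩ := split_last (ν + 1) F hF
      have hH : H.IsHomogeneous ν := by
        intro m hm
        have h1 := hdeg m hm
        have h2 : Finsupp.weight (fun _ : Fin (n + 1) => (1 : ℕ)) m = m.degree := by
          rw [Finsupp.degree_eq_weight_one]
        change Finsupp.weight (fun _ : Fin (n + 1) => (1 : ℕ)) m = ν
        rw [h2]
        omega
      have hevF : eval a F = eval a' G + a (Fin.last n) * eval a H := by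
        rw [hFGH, map_add, map_mul, eval_X, eval_rename]
        rfl
      have hGJ : eval a' G ∈ J' ^ (ν + 1) :=
        (Ideal.mem_span_pow_iff_exists_isHomogeneous a' _).2 ⟨G, hG, rfl⟩
      have h1 : a (Fin.last n) * eval a H ∈ c ⊔ J' ^ (ν + 1) := by
        have h2 : a (Fin.last n) * eval a H = eval a F - eval a' G := by rw [hevF]; ring
        rw [h2]
        exact sub_mem (Ideal.mem_sup_left hev) (Ideal.mem_sup_right hGJ)
      have h2 : eval a H ∈ c ⊔ J' ^ (ν + 1) := pow_colon c a' hQ _ ht _ _ h1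
      have h3 : ∀ m, coeff m H ∈ c ⊔ J :=
        ih H hH (sup_le_sup (le_refl c) (Ideal.pow_right_mono hJJ _) h2)
      obtain ⟨y', hy', z', hz', hyz'⟩ := Submodule.mem_sup.1 h2
      obtain ⟨L, hL, rfl⟩ := (Ideal.mem_span_pow_iff_exists_isHomogeneous a' z').1 hz'
      have h4 : ∀ m, coeff m (G + C (a (Fin.last n)) * L) ∈ c ⊔ J' := by
        refine hQ (ν + 1) _ (hG.add (by simpa using (isHomogeneous_C _ (a (Fin.last n))).mul hL)) ?_
        refine Ideal.mem_sup_left ?_
        have h5 : eval a' (G + C (a (Fin.last n)) * L) = eval a F - a (Fin.last n) * y' := by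
          rw [hevF, ← hyz', map_add, map_mul, eval_C]
          ring
        rw [h5]
        exact sub_mem hev (c.mul_mem_left _ hy')
      have h5 : ∀ m, coeff m G ∈ c ⊔ J := by
        intro m
        have h6 := h4 m
        rw [coeff_add, coeff_C_mul] at h6
        have h7 : coeff m G = (coeff m G + a (Fin.last n) * coeff m L) -
          a (Fin.last n) * coeff m L := by ring
        rw [h7]
        exact sub_mem (sup_le_sup (le_refl c) hJJ h6)
          (Ideal.mem_sup_right (J.mul_mem_right _ htJ))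
      intro m
      by_cases hm : m (Fin.last n) = 0
      · obtain ⟨m', hm'⟩ := hcG m hm
        rw [hm']
        exact h5 m'
      · obtain ⟨m', hm'⟩ := hcH m hm
        rw [hm']
        exact h3 m'
  exact key

theorem QR_of_reg {A : Type*} [CommRing A] (c : Ideal A) : ∀ (n : ℕ) (a : Fin n → A),
    (∀ (j : Fin n) (b : A), a j * b ∈ c ⊔ Ideal.span (a '' {i | i < j}) →
      b ∈ c ⊔ Ideal.span (a '' {i | i < j})) → QR c a := by
  intro n
  induction n with
  | zero =>
    intro a _ ν F hF hev m
    have h0 : F = C (coeff 0 F) := eq_C_of_isEmpty F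
    have hr : Ideal.span (Set.range a) = ⊥ := by
      rw [Set.range_eq_empty, Ideal.span_empty]
    rw [hr] at hev ⊢
    rcases Nat.eq_zero_or_pos ν with rfl | hν
    · rw [h0, eval_C, zero_add, pow_one] at hev
      rw [h0, coeff_C]
      split_ifs
      · exact hev
      · exact zero_mem _
    · have h1 : coeff m F = 0 := by
        by_contra h
        have h2 := hF h
        rw [Subsingleton.elim m 0, map_zero] at h2
        omega
      rw [h1]
      exact zero_mem _
  | succ n ih =>
    intro a ha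
    have himg : ∀ j : Fin n, a '' {i | i < j.castSucc} =
        (fun i : Fin n => a i.castSucc) '' {i | i < j} := by
      intro j
      ext y
      constructor
      · rintro ⟨i, hi, rfl⟩
        have hi' : i < j.castSucc := hi
        have h2 : i ≠ Fin.last n := ne_of_lt (lt_trans hi' (Fin.castSucc_lt_last j))
        refine ⟨i.castPred h2, ?_, by simp⟩
        change i.castPred h2 < j
        rw [← Fin.castSucc_lt_castSucc_iff, Fin.castSucc_castPred]
        exact hi'
      · rintro ⟨i, hi, rfl⟩
        exact ⟨i.castSucc, Fin.castSucc_lt_castSucc_iff.2 hi, rfl⟩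
    have hlast : a '' {i | i < Fin.last n} = Set.range (fun i : Fin n => a i.castSucc) := by
      ext y
      constructor
      · rintro ⟨i, hi, rfl⟩
        have hi' : i < Fin.last n := hi
        exact ⟨i.castPred hi'.ne, by simp⟩
      · rintro ⟨i, rfl⟩
        exact ⟨i.castSucc, Fin.castSucc_lt_last i, rfl⟩
    refine QR_step c a (ih _ ?_) ?_
    · intro j b hb
      have h1 := ha j.castSucc b
      rw [himg j] at h1
      exact h1 hb
    · intro b hb
      have h1 := ha (Fin.last n) b
      rw [hlast] at h1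
      exact h1 hb

end

end H71.CI
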