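import Pool.Agent.H71.CI.Depth
import Pool.Agent.H71.CI.QMod2
import Pool.Agent.H71.CI.QReg

/-!
# The forms of a complete intersection are quasi-regular
-/

open MvPolynomial

set_option linter.unusedSectionVars false
set_option linter.unusedVariables false

namespace H71.CI

open H89.Hart H94.Cubic H94.Deg

section

variable {σ : Type*} [Fintype σ] [DecidableEq σ] {K : Type*} [Fintype K] [DecidableEq K]

/-- D1: the forms of a complete intersection are quasi-regular (from `macaulay` and B). -/
theorem QR_of_CIx {f : K → MvPolynomial σ ℂ} {d : K → ℕ} (h : CIx f d) : QR ⊥ f := by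
  let φ : Fin (Fintype.card K) ≃ K := (Fintype.equivFin K).symm
  have hL : Forms (List.ofFn fun i => f (φ i)) := by
    intro x hx
    obtain ⟨i, rfl⟩ := List.mem_ofFn.1 hx
    exact ⟨d (φ i), h.pos _, h.hom _⟩
  have hc : Codim (List.ofFn fun i => f (φ i)) (List.ofFn fun i => f (φ i)).length := by
    intro Q hQ hf
    rw [List.length_ofFn]
    apply h.codim Q hQ
    intro k
    have := hf (f (φ (φ.symm k))) (List.mem_ofFn.2 ⟨φ.symm k, rfl⟩)
    rwa [Equiv.apply_symm_apply] at this
  have hr := macaulay hL hc
  have h1 : QR ⊥ (fun i => f (φ i)) := by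
    apply QR_of_reg
    intro j b hb
    have h2 : Ideal.span ((fun i => f (φ i)) '' {i | i < j}) =
        LS ((List.ofFn fun i => f (φ i)).take j) := by
      rw [LS]
      congr 1
      ext p
      simp only [Set.mem_image, Set.mem_ofPred_eq]
      rw [List.mem_take_iff_getElem]
      constructor
      · rintro ⟨i, hi, rfl⟩
        refine ⟨i, ?_, by simp⟩
        rw [List.length_ofFn, lt_min_iff]
        exact ⟨hi, i.2⟩
      · rintro ⟨i, hi, rfl⟩
        rw [List.length_ofFn, lt_min_iff] at hi
        exact ⟨⟨i, hi.2⟩, hi.1, by simp⟩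
    have hj : (j : ℕ) < (List.ofFn fun i => f (φ i)).length := by
      rw [List.length_ofFn]; exact j.2
    rw [h2] at hb ⊢
    apply regL_get hr j hj b
    have h3 : (List.ofFn fun i => f (φ i))[(j : ℕ)] = f (φ j) := by simp
    rw [h3]
    exact hb
  have h4 := QR_equiv φ.symm _ h1
  have h5 : (fun t => (fun i => f (φ i)) (φ.symm t)) = f := by
    funext t
    simp
  rwa [h5] at h4

end

end H71.CI
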