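import Pool.Agent.H71.CI.Defs
import Pool.Agent.H94.Deg.ProdCones
import Pool.Agent.H94.Deg.Greedy

/-!
# The greedy basis of a family of polynomial vectors does not depend on the point
-/

open MvPolynomial

set_option linter.unusedSectionVars false
set_option linter.unusedSimpArgs false
set_option linter.unusedVariables false

namespace H71.CI

open H89.Hart H94.Cubic H94.Deg

section GreedyV

variable {σ : Type*} [Fintype σ] [DecidableEq σ] {κ : Type*} [Fintype κ] [DecidableEq κ]

/-- the vanishing locus of a section of a bundle of rank `c'`. -/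
theorem exists_zero_coneV {P : Ideal (MvPolynomial σ ℂ)} (hP : HP P) {γ : Type*}
    (v : γ → κ → MvPolynomial σ ℂ) (c' : ℕ)
    (hrank : ∀ z ∈ cone P, z ≠ 0 →
      Module.finrank ℂ (Submodule.span ℂ (Set.range fun a => ev z (v a))) = c')
    {g : κ → MvPolynomial σ ℂ} {d : ℕ} (hg : ∀ i, (g i).IsHomogeneous d)
    (hgs : ∀ z ∈ cone P, ev z g ∈ Submodule.span ℂ (Set.range fun a => ev z (v a)))
    {z₀ : σ → ℂ} (hz₀ : z₀ ∈ cone P) (hz₀0 : z₀ ≠ 0) (h0 : ev z₀ g = 0) :
    ∃ Q : Ideal (MvPolynomial σ ℂ), HP Q ∧ P ≤ Q ∧ dm P ≤ dm Q + c' ∧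
      ∀ z ∈ cone Q, ev z g = 0 := by
  have h1 := Submodule.exists_fun_fin_finrank_span_eq ℂ (Set.range fun a => ev z₀ (v a))
  rw [hrank z₀ hz₀ hz₀0] at h1
  obtain ⟨b, hb1, -, hb3⟩ := h1
  choose s hs using hb1
  have hbs : (fun i => ev z₀ (v (s i))) = b := funext hs
  have hli : LinearIndependent ℂ (fun i => ev z₀ (v (s i))) := by rw [hbs]; exact hb3
  obtain ⟨l, hl⟩ := exists_dual_gen _ hli
  have hel : ∀ (z : σ → ℂ) (j : Fin c'), eval z (∑ k, C (l j k) * g k) = ev z g ⬝ᵥ l j := by
    intro z j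
    rw [map_sum]
    simp only [dotProduct, ev_apply, map_mul, eval_C, mul_comm]
  obtain ⟨Q, hQ, hPQ, hgQ, hqQ, hdQ⟩ := comp_rel hP (fun j : Fin c' => ∑ k, C (l j k) * g k)
    (fun j => ⟨d, IsHomogeneous.sum _ _ _ fun k _ => by
      have := (isHomogeneous_C σ (l j k)).mul (hg k)
      simpa using this⟩) (q := z₀) hz₀
    (fun j => by rw [hel, h0, zero_dotProduct])
  rw [Fintype.card_fin] at hdQ
  obtain ⟨k, hk⟩ := exists_coord hz₀0
  have hQp := hQ.prime
  set Δ : MvPolynomial σ ℂ := (pmat (fun i => v (s i)) l).det with hΔ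
  have hΔQ : Δ ∉ Q := det_not_mem hqQ (fun i => v (s i)) l hl
  have hX : (X k : MvPolynomial σ ℂ) ∉ Q := fun hm => hk (by simpa using hqQ _ hm)
  have hdF : ∀ i, g i ∈ Q := by
    intro i
    have key : X k * Δ * g i ∈ Q := by
      apply mem_of_cone hQp
      intro z hz
      rw [map_mul]
      by_cases h2 : eval z (X k * Δ) = 0
      · rw [h2, zero_mul]
      · rw [map_mul, eval_X] at h2
        have h3 : z k ≠ 0 := left_ne_zero_of_mul h2
        have h4 : eval z Δ ≠ 0 := right_ne_zero_of_mul h2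
        have hz0 : z ≠ 0 := by rintro rfl; exact h3 rfl
        have hzP := cone_anti hPQ hz
        rw [hΔ, eval_det_pmat] at h4
        have h5 := span_eq_of_pm _ l h4 (Submodule.span ℂ (Set.range fun a => ev z (v a)))
          (fun i => Submodule.subset_span ⟨s i, rfl⟩)
          (by rw [hrank z hzP hz0, Fintype.card_fin])
        have h6 := hgs z hzP
        rw [← h5] at h6
        have h7 := cramer_gen _ l h6
        have h8 : (fun j => ev z g ⬝ᵥ l j) = 0 := by
          funext j
          rw [← hel]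
          exact hz _ (hgQ j)
        rw [h8] at h7
        simp only [map_zero, Pi.zero_apply, zero_smul, Finset.sum_const_zero] at h7
        have h9 : ev z g = 0 := (smul_eq_zero.1 h7).resolve_left h4
        have h10 : eval z (g i) = 0 := congrFun h9 i
        rw [h10, mul_zero]
    refine (hQp.mem_or_mem key).resolve_left fun h2 => ?_
    rcases hQp.mem_or_mem h2 with h3 | h3
    · exact hX h3
    · exact hΔQ h3
  exact ⟨Q, hQ, hPQ, hdQ, fun z hz => funext fun i => hz _ (hdF i)⟩

/-- the family `w, v (s i)`. -/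
noncomputable def GV {α m : Type*} (v : α → κ → MvPolynomial σ ℂ) (s : m → α)
    (w : κ → MvPolynomial σ ℂ) (o : Option m) : κ → MvPolynomial σ ℂ :=
  o.elim w (fun i => v (s i))

section GV

variable {α m : Type*} (v : α → κ → MvPolynomial σ ℂ) (s : m → α)

theorem ev_GV_none (w : κ → MvPolynomial σ ℂ) (y : σ → ℂ) : ev y (GV v s w none) = ev y w := rfl

theorem ev_GV_some (w : κ → MvPolynomial σ ℂ) (y : σ → ℂ) (i : m) :
    ev y (GV v s w (some i)) = ev y (v (s i)) := rfl

theorem GV_li (w : κ → MvPolynomial σ ℂ) (y : σ → ℂ) :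
    LinearIndependent ℂ (fun o => ev y (GV v s w o)) ↔
      LinearIndependent ℂ (fun i => ev y (v (s i))) ∧
      ev y w ∉ Submodule.span ℂ (Set.range fun i => ev y (v (s i))) := by
  rw [linearIndependent_option]
  rfl

variable [Fintype m] [DecidableEq m]

theorem GV_cramer (w w' : κ → MvPolynomial σ ℂ) (y : σ → ℂ) (l : Option m → κ → ℂ) :
    (pm (fun o => ev y (GV v s w o)) l).cramer (fun j => ev y w' ⬝ᵥ l j) none =
      (pm (fun o => ev y (GV v s w' o)) l).det := by
  rw [Matrix.cramer_apply]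
  congr 1
  ext j o
  cases o with
  | none => rw [Matrix.updateCol_self, pm, Matrix.of_apply, ev_GV_none]
  | some i =>
    rw [Matrix.updateCol_ne (by simp), pm, pm, Matrix.of_apply, Matrix.of_apply, ev_GV_some,
      ev_GV_some]

theorem GV_homog {dg : α → ℕ} (hd : ∀ a i, (v a i).IsHomogeneous (dg a))
    {w : κ → MvPolynomial σ ℂ} {d : ℕ} (hw : ∀ i, (w i).IsHomogeneous d)
    (l : Option m → κ → ℂ) :
    ∃ D, ((pmat (GV v s w) l).det).IsHomogeneous D := by
  refine ⟨_, det_homog_col _ (fun o : Option m => o.elim d (fun i => dg (s i))) ?_⟩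
  intro j o
  apply pmat_homog
  intro o k
  cases o with
  | none => exact hw k
  | some i => exact hd (s i) k

/-- where the bordered determinant vanishes, the vector lies in the span of the frame. -/
theorem GV_small {w w' : κ → MvPolynomial σ ℂ} {y : σ → ℂ} {l : Option m → κ → ℂ}
    {S : Submodule ℂ (κ → ℂ)} (hS : Module.finrank ℂ S = Fintype.card m + 1)
    (hle : ∀ o, ev y (GV v s w o) ∈ S) (hw' : ev y w' ∈ S)
    (hΔ : eval y (pmat (GV v s w) l).det ≠ 0) (hu : eval y (pmat (GV v s w') l).det = 0) :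
    ev y w' ∈ Submodule.span ℂ (Set.range fun i => ev y (v (s i))) := by
  rw [eval_det_pmat] at hΔ hu
  have h5 := span_eq_of_pm _ l hΔ S hle (by rw [hS, Fintype.card_option])
  rw [← h5] at hw'
  have h7 := cramer_gen _ l hw'
  rw [Fintype.sum_option, GV_cramer, hu, zero_smul, zero_add] at h7
  have h9 : (pm (fun o => ev y (GV v s w o)) l).det • ev y w' ∈
      Submodule.span ℂ (Set.range fun i => ev y (v (s i))) := by
    rw [h7]
    exact Submodule.sum_mem _ fun i _ => Submodule.smul_mem _ _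
      (Submodule.subset_span ⟨i, rfl⟩)
  exact (Submodule.smul_mem_iff _ hΔ).1 h9

end GV

/-- semicontinuity of the rank on an irreducible closed set. -/
theorem rank_le_of_genericV {Q' : Ideal (MvPolynomial σ ℂ)} (hQ' : Q'.IsPrime) {α : Type*}
    (v : α → κ → MvPolynomial σ ℂ) (m₁ : ℕ) {Δ : MvPolynomial σ ℂ} (hΔQ : Δ ∉ Q')
    (hsmall : ∀ y ∈ cone Q', y ≠ 0 → eval y Δ ≠ 0 →
      Module.finrank ℂ (Submodule.span ℂ (Set.range fun a => ev y (v a))) ≤ m₁)
    {z : σ → ℂ} (hz : z ∈ cone Q') (hz0 : z ≠ 0) :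
    Module.finrank ℂ (Submodule.span ℂ (Set.range fun a => ev z (v a))) ≤ m₁ := by
  by_contra hlt
  rw [not_le] at hlt
  set c' := Module.finrank ℂ (Submodule.span ℂ (Set.range fun a => ev z (v a))) with hc'
  have h1 := Submodule.exists_fun_fin_finrank_span_eq ℂ (Set.range fun a => ev z (v a))
  rw [← hc'] at h1
  obtain ⟨b', hb1', -, hb3'⟩ := h1
  choose τ hτ using hb1'
  have hbτ : (fun i => ev z (v (τ i))) = b' := funext hτ
  have hli' : LinearIndependent ℂ (fun i => ev z (v (τ i))) := by rw [hbτ]; exact hb3'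
  obtain ⟨l', hl'⟩ := exists_dual_gen _ hli'
  have hD : (pmat (fun i => v (τ i)) l').det ∉ Q' :=
    det_not_mem hz (fun i => v (τ i)) l' hl'
  obtain ⟨k, hk⟩ := exists_coord hz0
  have hX : (X k : MvPolynomial σ ℂ) ∉ Q' := fun hm => hk (by simpa using hz _ hm)
  have hall : X k * (Δ * (pmat (fun i => v (τ i)) l').det) ∉ Q' := by
    intro hm
    rcases hQ'.mem_or_mem hm with h2 | h2
    · exact hX h2
    · rcases hQ'.mem_or_mem h2 with h3 | h3
      · exact hΔQ h3
      · exact hD h3
  apply hall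
  apply mem_of_cone hQ'
  intro y hy
  by_contra hne
  rw [map_mul, map_mul, eval_X] at hne
  have hy1 : y k ≠ 0 := left_ne_zero_of_mul hne
  have hy2 : eval y Δ ≠ 0 := left_ne_zero_of_mul (right_ne_zero_of_mul hne)
  have hy3 := right_ne_zero_of_mul (right_ne_zero_of_mul hne)
  have hy0 : y ≠ 0 := by rintro rfl; exact hy1 rfl
  rw [eval_det_pmat] at hy3
  have h4 := li_of_pm _ l' hy3
  have h5 : Submodule.span ℂ (Set.range fun i => ev y (v (τ i))) ≤
      Submodule.span ℂ (Set.range fun a => ev y (v a)) := by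
    rw [Submodule.span_le]
    rintro _ ⟨i, rfl⟩
    exact Submodule.subset_span ⟨τ i, rfl⟩
  have h6 := Submodule.finrank_mono h5
  rw [finrank_span_eq_card h4, Fintype.card_fin] at h6
  have h7 := hsmall y hy hy0 hy2
  omega

/-- Local equations of the locus where the vectors `ev z (v a)` have small rank. -/
theorem exists_rank_eqsV {K : Type*} (f : K → MvPolynomial σ ℂ) {α : Type*} [Fintype α]
    [DecidableEq α] (v : α → κ → MvPolynomial σ ℂ) (dg : α → ℕ)
    (hd : ∀ a i, (v a i).IsHomogeneous (dg a)) (w₀ : κ → MvPolynomial σ ℂ) (c' : ℕ)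
    (hrank : ∀ z, Y f z → Module.finrank ℂ (Submodule.span ℂ
      (insert (ev z w₀) (Set.range fun a => ev z (v a)))) = c')
    {z₁ : σ → ℂ} (hz₁ : Y f z₁)
    (hnot : ev z₁ w₀ ∉ Submodule.span ℂ (Set.range fun a => ev z₁ (v a))) :
    ∃ (B : Finset α) (u : α → MvPolynomial σ ℂ), B.card + c' = Fintype.card α + 1 ∧
      (∀ a, ∃ d, (u a).IsHomogeneous d) ∧ (∀ a, eval z₁ (u a) = 0) ∧
      ∀ Q' : Ideal (MvPolynomial σ ℂ), Q'.IsPrime → (∀ k, f k ∈ Q') → (∀ a ∈ B, u a ∈ Q') →
        z₁ ∈ cone Q' → ∀ z ∈ cone Q', z ≠ 0 →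
          ev z w₀ ∉ Submodule.span ℂ (Set.range fun a => ev z (v a)) := by
  classical
  set m₁ := Module.finrank ℂ (Submodule.span ℂ (Set.range fun a => ev z₁ (v a))) with hm₁
  have h1 := Submodule.exists_fun_fin_finrank_span_eq ℂ (Set.range fun a => ev z₁ (v a))
  rw [← hm₁] at h1
  obtain ⟨b, hb1, hb2, hb3⟩ := h1
  choose s hs using hb1
  have hbs : (fun i => ev z₁ (v (s i))) = b := funext hs
  have hli : LinearIndependent ℂ (fun i => ev z₁ (v (s i))) := by rw [hbs]; exact hb3
  have hsp : Submodule.span ℂ (Set.range fun i => ev z₁ (v (s i))) =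
      Submodule.span ℂ (Set.range fun a => ev z₁ (v a)) := by rw [hbs]; exact hb2
  have hsi : Function.Injective s := by
    intro i j hij
    exact hli.injective (by simp only [hij])
  have hLI₀ : LinearIndependent ℂ (fun o => ev z₁ (GV v s w₀ o)) := by
    rw [GV_li]
    exact ⟨hli, by rw [hsp]; exact hnot⟩
  have hle : ∀ y : σ → ℂ, ∀ o, ev y (GV v s w₀ o) ∈ Submodule.span ℂ
      (insert (ev y w₀) (Set.range fun a => ev y (v a))) := by
    intro y o
    cases o with
    | none => exact Submodule.subset_span (Set.mem_insert _ _)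
    | some i => exact Submodule.subset_span (Set.mem_insert_of_mem _ ⟨s i, rfl⟩)
  have hc' : c' = m₁ + 1 := by
    have h2 : Submodule.span ℂ (Set.range fun o => ev z₁ (GV v s w₀ o)) = Submodule.span ℂ
        (insert (ev z₁ w₀) (Set.range fun a => ev z₁ (v a))) := by
      apply le_antisymm
      · rw [Submodule.span_le]
        rintro _ ⟨o, rfl⟩
        exact hle z₁ o
      · rw [Submodule.span_le]
        rintro x (rfl | hx)
        · exact Submodule.subset_span ⟨none, rfl⟩
        · have h3 : x ∈ Submodule.span ℂ (Set.range fun i => ev z₁ (v (s i))) := by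
            rw [hsp]; exact Submodule.subset_span hx
          refine Submodule.span_mono ?_ h3
          rintro _ ⟨i, rfl⟩
          exact ⟨some i, rfl⟩
    have h4 := hrank z₁ hz₁
    rw [← h2, finrank_span_eq_card hLI₀, Fintype.card_option, Fintype.card_fin] at h4
    exact h4.symm
  obtain ⟨l, hl⟩ := exists_dual_gen _ hLI₀
  refine ⟨(Finset.univ.image s)ᶜ, fun a => (pmat (GV v s (v a)) l).det, ?_, ?_, ?_, ?_⟩
  · rw [Finset.card_compl, Finset.card_image_of_injective _ hsi, Finset.card_univ,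
      Fintype.card_fin, hc']
    have : m₁ ≤ Fintype.card α := by
      have := Fintype.card_le_of_injective s hsi
      rwa [Fintype.card_fin] at this
    omega
  · intro a
    exact GV_homog v s hd (hd a) l
  · intro a
    rw [eval_det_pmat]
    by_contra hc
    have h2 := li_of_pm _ l hc
    rw [GV_li] at h2
    apply h2.2
    rw [hsp]
    exact Submodule.subset_span ⟨a, rfl⟩
  · intro Q' hQ' hfQ' huQ' hz₁Q' z hz hz0 hmem
    have hY : ∀ y ∈ cone Q', y ≠ 0 → Y f y := fun y hy hy0 => ⟨hy0, fun k => hy _ (hfQ' k)⟩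
    have hΔQ : (pmat (GV v s w₀) l).det ∉ Q' := det_not_mem hz₁Q' (GV v s w₀) l hl
    have hT : Module.finrank ℂ (Submodule.span ℂ (Set.range fun a => ev z (v a))) = c' := by
      rw [← hrank z (hY z hz hz0), Submodule.span_insert_eq_span hmem]
    have hlast : Module.finrank ℂ (Submodule.span ℂ (Set.range fun a => ev z (v a))) ≤ m₁ := by
      refine rank_le_of_genericV hQ' v m₁ hΔQ (fun y hy hy0 hyΔ => ?_) hz hz0
      have h3 : Submodule.span ℂ (Set.range fun a => ev y (v a)) ≤
          Submodule.span ℂ (Set.range fun i => ev y (v (s i))) := by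
        rw [Submodule.span_le]
        rintro _ ⟨a, rfl⟩
        by_cases ha : a ∈ Finset.univ.image s
        · obtain ⟨i, -, rfl⟩ := Finset.mem_image.1 ha
          exact Submodule.subset_span ⟨i, rfl⟩
        · exact GV_small v s (by rw [hrank y (hY y hy hy0), Fintype.card_fin, hc'])
            (hle y) (Submodule.subset_span (Set.mem_insert_of_mem _ ⟨a, rfl⟩)) hyΔ
            (hy _ (huQ' a (Finset.mem_compl.2 ha)))
      have h4 := Submodule.finrank_mono h3
      have h5 := finrank_span_range_le (fun i => ev y (v (s i)))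
      rw [Fintype.card_fin] at h5
      omega
    omega

/-- a relation of top degree holds everywhere if it holds somewhere. -/
theorem fn_oneV {K : Type*} [Fintype K] (f : K → MvPolynomial σ ℂ)
    (hf : ∀ k, ∃ d, (f k).IsHomogeneous d) {α : Type*} [Fintype α] [DecidableEq α]
    (v : α → κ → MvPolynomial σ ℂ) (dg : α → ℕ) (hd : ∀ a i, (v a i).IsHomogeneous (dg a))
    (w₀ : κ → MvPolynomial σ ℂ) (d₀ : ℕ) (hd₀ : ∀ i, (w₀ i).IsHomogeneous d₀)
    (hle : ∀ a, dg a ≤ d₀) (c' : ℕ)
    (hrank : ∀ z, Y f z → Module.finrank ℂ (Submodule.span ℂ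
      (insert (ev z w₀) (Set.range fun a => ev z (v a)))) = c')
    (hn : 2 * Fintype.card K + Fintype.card α + 1 < Fintype.card σ) {z₀ z₁ : σ → ℂ}
    (hz₀ : Y f z₀) (hz₁ : Y f z₁)
    (hrel : ev z₀ w₀ ∈ Submodule.span ℂ (Set.range fun a => ev z₀ (v a))) :
    ev z₁ w₀ ∈ Submodule.span ℂ (Set.range fun a => ev z₁ (v a)) := by
  by_contra hnot
  obtain ⟨lam, hlam⟩ := (Submodule.mem_span_range_iff_exists_fun ℂ).1 hrel
  choose L hLh hLe using fun a => exists_form hz₀.1 (d₀ - dg a) (lam a)
  set g : κ → MvPolynomial σ ℂ := fun i => w₀ i - ∑ a, L a * v a i with hg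
  have hgh : ∀ i, (g i).IsHomogeneous d₀ := by
    intro i
    rw [hg]
    refine (hd₀ i).sub (IsHomogeneous.sum _ _ _ fun a _ => ?_)
    have h1 := (hLh a).mul (hd a i)
    rwa [Nat.sub_add_cancel (hle a)] at h1
  have hevg : ∀ z : σ → ℂ, ev z g = ev z w₀ - ∑ a, eval z (L a) • ev z (v a) := by
    intro z
    funext i
    simp only [ev_apply, hg, map_sub, map_sum, map_mul, Pi.sub_apply, Finset.sum_apply,
      Pi.smul_apply, smul_eq_mul]
  have hg0 : ev z₀ g = 0 := by
    rw [hevg z₀, ← hlam, sub_eq_zero]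
    exact Finset.sum_congr rfl fun a _ => by rw [hLe]
  have hrange : ∀ z : σ → ℂ, (Set.range fun o : Option α => ev z (o.elim w₀ v)) =
      insert (ev z w₀) (Set.range fun a => ev z (v a)) := by
    intro z
    ext x
    constructor
    · rintro ⟨o, rfl⟩
      cases o with
      | none => exact Set.mem_insert _ _
      | some a => exact Set.mem_insert_of_mem _ ⟨a, rfl⟩
    · rintro (rfl | ⟨a, rfl⟩)
      · exact ⟨none, rfl⟩
      · exact ⟨some a, rfl⟩
  obtain ⟨P, hP, hfP, hz₀P, hdP⟩ := comp_abs f hf (q := z₀) hz₀.2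
  have hYP : ∀ z ∈ cone P, z ≠ 0 → Y f z := fun z hz hz0 => ⟨hz0, fun k => hz _ (hfP k)⟩
  obtain ⟨Q, hQ, hPQ, hdQ, hgQ⟩ := exists_zero_coneV hP (fun o : Option α => o.elim w₀ v) c'
    (fun z hz hz0 => by rw [hrange]; exact hrank z (hYP z hz hz0)) hgh
    (fun z hz => by
      rw [hrange, hevg z]
      refine Submodule.sub_mem _ (Submodule.subset_span (Set.mem_insert _ _)) ?_
      exact Submodule.sum_mem _ fun a _ => Submodule.smul_mem _ _
        (Submodule.subset_span (Set.mem_insert_of_mem _ ⟨a, rfl⟩)))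
    hz₀P hz₀.1 hg0
  obtain ⟨B, u, hcard, huh, hu0, hu⟩ := exists_rank_eqsV f v dg hd w₀ c' hrank hz₁ hnot
  obtain ⟨P', hP', hgP', hz₁P', z, hzQ, hz0, hzP'⟩ := prod_cones' hQ
    (Sum.elim f (fun b : B => u b) : K ⊕ B → MvPolynomial σ ℂ)
    (by
      rintro (k | b)
      · exact hf k
      · exact huh b)
    (z₁ := z₁)
    (by
      rintro (k | b)
      · exact hz₁.2 k
      · exact hu0 b)
    (by
      rw [Fintype.card_sum, Fintype.card_coe]
      omega)
  refine hu P' hP' (fun k => hgP' (Sum.inl k)) (fun a ha => hgP' (Sum.inr ⟨a, ha⟩)) hz₁P' z hzP'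
    hz0 ?_
  have h1 := hgQ z hzQ
  rw [hevg z, sub_eq_zero] at h1
  rw [h1]
  exact Submodule.sum_mem _ fun a _ => Submodule.smul_mem _ _ (Submodule.subset_span ⟨a, rfl⟩)

end GreedyV

/-- A: the greedy basis does not depend on the point. -/
theorem greedyV {σ : Type*} [Fintype σ] [DecidableEq σ] {K : Type*} [Fintype K]
    (f : K → MvPolynomial σ ℂ) (hf : ∀ k, ∃ d, (f k).IsHomogeneous d)
    {α : Type*} [Fintype α] [LinearOrder α] {κ : Type*} [Fintype κ] [DecidableEq κ]
    (w : α → κ → MvPolynomial σ ℂ) (dg : α → ℕ) (hw : ∀ a i, (w a i).IsHomogeneous (dg a))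
    (hmono : Monotone dg) (r : ℕ)
    (hrank : ∀ x, Y f x →
      Module.finrank ℂ (Submodule.span ℂ (Set.range fun a => ev x (w a))) = r)
    (hn : 2 * Fintype.card K + Fintype.card α < Fintype.card σ) (hne : ∃ x, Y f x) :
    ∃ B : Finset α, ∀ x, Y f x →
      LinearIndependent ℂ (fun a : B => ev x (w a)) ∧
      Submodule.span ℂ (Set.range fun a : B => ev x (w a)) =
        Submodule.span ℂ (Set.range fun a => ev x (w a)) := by
  classical
  -- the fundamental step
  have step : ∀ a : α, (∃ c', ∀ z, Y f z → Module.finrank ℂ (Submodule.span ℂ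
      ((fun b => ev z (w b)) '' Set.Iic a)) = c') →
      ∀ z₀, Y f z₀ → ∀ z₁, Y f z₁ →
      ev z₀ (w a) ∈ Submodule.span ℂ ((fun b => ev z₀ (w b)) '' Set.Iio a) →
      ev z₁ (w a) ∈ Submodule.span ℂ ((fun b => ev z₁ (w b)) '' Set.Iio a) := by
    rintro a ⟨c', hc'⟩ z₀ hz₀ z₁ hz₁ hrel
    have e1 : ∀ z : σ → ℂ, (Set.range fun b : Set.Iio a => ev z (w b)) =
        (fun b => ev z (w b)) '' Set.Iio a := by
      intro z
      ext x
      constructor
      · rintro ⟨b, rfl⟩; exact ⟨b, b.2, rfl⟩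
      · rintro ⟨b, hb, rfl⟩; exact ⟨⟨b, hb⟩, rfl⟩
    have e2 : ∀ z : σ → ℂ, insert (ev z (w a)) (Set.range fun b : Set.Iio a => ev z (w b)) =
        (fun b => ev z (w b)) '' Set.Iic a := by
      intro z
      rw [e1, ← Set.Iio_insert, Set.image_insert_eq]
    have hcard : Fintype.card (Set.Iio a) + 1 ≤ Fintype.card α := by
      have : Fintype.card (Set.Iio a) < Fintype.card α :=
        Fintype.card_subtype_lt (p := fun b => b ∈ Set.Iio a) (x := a) (lt_irrefl a)
      omega
    have := fn_oneV f hf (α := Set.Iio a) (fun b => w b) (fun b => dg b)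
      (fun b => hw b) (w a) (dg a) (hw a) (fun b => hmono b.2.le) c'
      (fun z hz => by rw [e2]; exact hc' z hz) (by omega) hz₀ hz₁
      (by rw [e1]; exact hrel)
    rwa [e1] at this
  -- ranks of the initial spans are constant
  have step2 : ∀ a : α, (∃ c', ∀ z, Y f z → Module.finrank ℂ (Submodule.span ℂ
      ((fun b => ev z (w b)) '' Set.Iic a)) = c') →
      (∃ c', ∀ z, Y f z → Module.finrank ℂ (Submodule.span ℂ
      ((fun b => ev z (w b)) '' Set.Iio a)) = c') := by
    rintro a ⟨c', hc'⟩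
    obtain ⟨z₀, hz₀⟩ := hne
    by_cases hin : ev z₀ (w a) ∈ Submodule.span ℂ ((fun b => ev z₀ (w b)) '' Set.Iio a)
    · refine ⟨c', fun z hz => ?_⟩
      rw [← hc' z hz, ← Set.Iio_insert, Set.image_insert_eq,
        Submodule.span_insert_eq_span (step a ⟨c', hc'⟩ z₀ hz₀ z hz hin)]
    · refine ⟨c' - 1, fun z hz => ?_⟩
      have h1 : ev z (w a) ∉ Submodule.span ℂ ((fun b => ev z (w b)) '' Set.Iio a) :=
        fun hcon => hin (step a ⟨c', hc'⟩ z hz z₀ hz₀ hcon)
      rw [← hc' z hz, ← Set.Iio_insert, Set.image_insert_eq,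
        GreedyAux.finrank_insert_notMem h1]
      rfl
  have main : ∀ n : ℕ, ∀ a : α, (Finset.univ.filter (fun b => a < b)).card = n →
      (∃ c', ∀ z, Y f z → Module.finrank ℂ (Submodule.span ℂ
      ((fun b => ev z (w b)) '' Set.Iic a)) = c') := by
    intro n
    induction n with
    | zero =>
      intro a ha
      rw [Finset.card_eq_zero, Finset.filter_eq_empty_iff] at ha
      have h1 : Set.Iic a = Set.univ := by
        ext b
        simp only [Set.mem_Iic, Set.mem_univ, iff_true]
        exact not_lt.1 (ha (Finset.mem_univ b))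
      refine ⟨r, fun z hz => ?_⟩
      rw [h1, Set.image_univ, hrank z hz]
    | succ n ih =>
      intro a ha
      have hne' : (Finset.univ.filter (fun b => a < b)).Nonempty := by
        rw [← Finset.card_pos]; omega
      set b := (Finset.univ.filter (fun b => a < b)).min' hne' with hb
      have hab : a < b := (Finset.mem_filter.1 (Finset.min'_mem _ hne')).2
      have h1 : Set.Iio b = Set.Iic a := by
        ext x
        simp only [Set.mem_Iio, Set.mem_Iic]
        constructor
        · intro hx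
          by_contra hcon
          have := Finset.min'_le _ x (Finset.mem_filter.2 ⟨Finset.mem_univ x, not_le.1 hcon⟩)
          exact absurd hx (not_lt.2 this)
        · intro hx
          exact lt_of_le_of_lt hx hab
      have h2 : (Finset.univ.filter (fun x => b < x)).card = n := by
        have h3 : (Finset.univ.filter (fun x => b < x)) =
            (Finset.univ.filter (fun x => a < x)).erase b := by
          ext x
          simp only [Finset.mem_filter, Finset.mem_univ, true_and, Finset.mem_erase]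
          constructor
          · intro hx
            exact ⟨hx.ne', hab.trans hx⟩
          · rintro ⟨hx1, hx2⟩
            refine lt_of_le_of_ne ?_ hx1.symm
            exact Finset.min'_le _ x (Finset.mem_filter.2 ⟨Finset.mem_univ x, hx2⟩)
        rw [h3, Finset.card_erase_of_mem (Finset.min'_mem _ hne'), ha]
        rfl
      have h4 := step2 b (ih b h2)
      rwa [h1] at h4
  obtain ⟨z₀, hz₀⟩ := hne
  refine ⟨Finset.univ.filter (fun a => ev z₀ (w a) ∉
    Submodule.span ℂ ((fun b => ev z₀ (w b)) '' Set.Iio a)), fun z hz => ?_⟩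
  have hB : ∀ a, a ∈ Finset.univ.filter (fun a => ev z₀ (w a) ∉
      Submodule.span ℂ ((fun b => ev z₀ (w b)) '' Set.Iio a)) ↔
      ev z (w a) ∉ Submodule.span ℂ ((fun b => ev z (w b)) '' Set.Iio a) := by
    intro a
    rw [Finset.mem_filter]
    constructor
    · rintro ⟨-, h1⟩ h2
      exact h1 (step a (main _ a rfl) z hz z₀ hz₀ h2)
    · intro h1
      exact ⟨Finset.mem_univ _, fun h2 => h1 (step a (main _ a rfl) z₀ hz₀ z hz h2)⟩
  exact ⟨GreedyAux.greedy_indep (fun a => ev z (w a)) _ hB,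
    GreedyAux.greedy_span (fun a => ev z (w a)) _ hB⟩

end H71.CI
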