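import Pool.Agent.H71.CI.QRci
import Pool.Agent.H71.CI.Local
import Pool.Agent.H71.CI.Depth
import Pool.Agent.H71.CI.Greedy
import Pool.Agent.H94.Deg.Theta

/-!
# The coefficient vectors of the elements of the ideal
-/

open MvPolynomial

set_option linter.unusedSectionVars false
set_option linter.unusedVariables false

namespace H71.CI

open H89.Hart H94.Cubic H94.Deg

section

variable {σ : Type*} [Fintype σ] [DecidableEq σ] {K : Type*} [Fintype K] [DecidableEq K]

/-- F1: coefficients are unique modulo `PP f`. -/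
theorem coef_mem {f : K → MvPolynomial σ ℂ} {d : K → ℕ} (h : CIx f d) {a : K → MvPolynomial σ ℂ}
    (ha : ∑ k, a k * f k ∈ PP f ^ 2) (k : K) : a k ∈ PP f := by
  have h1 := QR_of_CIx h 1 (∑ k, C (a k) * X k)
    (IsHomogeneous.sum _ _ _ fun i _ => isHomogeneous_C_mul_X _ _)
    (by
      rw [bot_sup_eq, map_sum]
      simp only [map_mul, eval_C, eval_X]
      exact ha) (Finsupp.single k 1)
  rw [bot_sup_eq, coeff_sum] at h1
  have h2 : ∑ i, coeff (Finsupp.single k 1) (C (a i) * X i : MvPolynomial K (MvPolynomial σ ℂ)) =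
      a k := by
    rw [Finset.sum_eq_single k]
    · rw [coeff_C_mul, coeff_X, if_pos rfl, mul_one]
    · intro b _ hb
      rw [coeff_C_mul, coeff_X, if_neg, mul_zero]
      intro h
      exact hb (Finsupp.single_left_injective one_ne_zero h)
    · intro hk
      exact absurd (Finset.mem_univ k) hk
  rwa [h2] at h1

theorem coef_mem_zero {f : K → MvPolynomial σ ℂ} {d : K → ℕ} (h : CIx f d)
    {a : K → MvPolynomial σ ℂ} (ha : ∑ k, a k * f k = 0) (k : K) : a k ∈ PP f :=
  coef_mem h (by rw [ha]; exact Ideal.zero_mem _) k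

theorem mem_PP {f : K → MvPolynomial σ ℂ} {a : MvPolynomial σ ℂ} :
    a ∈ PP f ↔ ∃ b : K → MvPolynomial σ ℂ, ∑ k, b k * f k = a :=
  Ideal.mem_span_range_iff_exists_fun

theorem f_mem (f : K → MvPolynomial σ ℂ) (k : K) : f k ∈ PP f := Ideal.subset_span ⟨k, rfl⟩

theorem eval_PP {f : K → MvPolynomial σ ℂ} {x : σ → ℂ} (hx : Y f x) {a : MvPolynomial σ ℂ}
    (ha : a ∈ PP f) : eval x a = 0 := by
  have : PP f ≤ RingHom.ker (eval x) := by
    rw [PP, Ideal.span_le]
    rintro _ ⟨k, rfl⟩
    exact hx.2 k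
  exact this ha

theorem Ctx.mem_cone {I : Ideal (MvPolynomial σ ℂ)} {r : ℕ} {f : K → MvPolynomial σ ℂ}
    {d : K → ℕ} (h : Ctx I r f d) {x : σ → ℂ} (hx : Y f x) : x ∈ cone I :=
  fun _ hg => eval_PP hx (h.sub hg)

/-- the linear map sending coefficient vectors to differentials. -/
noncomputable def Phi (f : K → MvPolynomial σ ℂ) (x : σ → ℂ) : (K → ℂ) →ₗ[ℂ] (σ → ℂ) :=
  Fintype.linearCombination ℂ (fun k => dif (f k) x)

theorem dif_comb {f : K → MvPolynomial σ ℂ} {x : σ → ℂ} (hx : Y f x)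
    (b : K → MvPolynomial σ ℂ) : dif (∑ k, b k * f k) x = Phi f x (ev x b) := by
  rw [dif_sum, Phi, Fintype.linearCombination_apply]
  refine Finset.sum_congr rfl fun k _ => ?_
  rw [dif_mul, hx.2 k, zero_smul, add_zero]
  rfl

/-- evaluation of vectors of polynomials. -/
noncomputable def evl (x : σ → ℂ) : (K → MvPolynomial σ ℂ) →ₗ[ℂ] (K → ℂ) where
  toFun b := ev x b
  map_add' a b := by funext k; simp [ev]
  map_smul' c a := by funext k; simp [ev, MvPolynomial.smul_eq_C_mul]

/-- the evaluations of the coefficient vectors. -/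
noncomputable def EE (I : Ideal (MvPolynomial σ ℂ)) (f : K → MvPolynomial σ ℂ) (x : σ → ℂ) :
    Submodule ℂ (K → ℂ) := ((HH I f).restrictScalars ℂ).map (evl x)

theorem mem_EE {I : Ideal (MvPolynomial σ ℂ)} {f : K → MvPolynomial σ ℂ} {x : σ → ℂ}
    {v : K → ℂ} : v ∈ EE I f x ↔ ∃ b ∈ HH I f, ev x b = v := by
  simp [EE, evl, Submodule.mem_map]

theorem map_EE {I : Ideal (MvPolynomial σ ℂ)} {r : ℕ} {f : K → MvPolynomial σ ℂ}
    {d : K → ℕ} (h : Ctx I r f d) {x : σ → ℂ} (hx : Y f x) :
    (EE I f x).map (Phi f x) = N I x := by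
  ext v
  rw [Submodule.mem_map, mem_N]
  constructor
  · rintro ⟨e, he, rfl⟩
    obtain ⟨b, hb, rfl⟩ := mem_EE.1 he
    exact ⟨_, mem_HH.1 hb, dif_comb hx b⟩
  · rintro ⟨G, hG, rfl⟩
    obtain ⟨b, rfl⟩ := mem_PP.1 (h.sub hG)
    exact ⟨ev x b, mem_EE.2 ⟨b, mem_HH.2 hG, rfl⟩, (dif_comb hx b).symm⟩

/-- local generation from independent differentials. -/
theorem gen_of_li {I : Ideal (MvPolynomial σ ℂ)} {r : ℕ} {f : K → MvPolynomial σ ℂ} {d : K → ℕ}
    (h : Ctx I r f d) {x : σ → ℂ} (hx : Y f x) {A : Type*} [Fintype A]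
    (hA : Fintype.card A = r) (g : A → K → MvPolynomial σ ℂ) (hg : ∀ l, g l ∈ HH I f)
    (hli : LinearIndependent ℂ (fun l => dif (∑ k, g l k * f k) x))
    {b : K → MvPolynomial σ ℂ} (hb : b ∈ HH I f) :
    ∃ u, eval x u ≠ 0 ∧ ∃ a : A → MvPolynomial σ ℂ, ∀ k, u * b k - ∑ l, a l * g l k ∈ PP f := by
  obtain ⟨u, hu, hm⟩ := L0s h.prime h.dim hA (fun l => ∑ k, g l k * f k)
    (fun l => mem_HH.1 (hg l)) (h.mem_cone hx) hx.1 hli (mem_HH.1 hb)
  obtain ⟨a, ha⟩ := Ideal.mem_span_range_iff_exists_fun.1 hm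
  refine ⟨u, hu, a, fun k => coef_mem_zero h.toCIx
    (a := fun k => u * b k - ∑ l, a l * g l k) ?_ k⟩
  have e1 : ∑ k, (u * b k - ∑ l, a l * g l k) * f k =
      u * ∑ k, b k * f k - ∑ l, a l * ∑ k, g l k * f k := by
    simp only [sub_mul, Finset.sum_sub_distrib, Finset.mul_sum, Finset.sum_mul, mul_assoc]
    congr 1
    rw [Finset.sum_comm]
  rw [e1, ← ha, sub_self]

theorem finrank_EE {I : Ideal (MvPolynomial σ ℂ)} {r : ℕ} {f : K → MvPolynomial σ ℂ} {d : K → ℕ}
    (h : Ctx I r f d) {x : σ → ℂ} (hx : Y f x) : Module.finrank ℂ (EE I f x) = r := by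
  apply le_antisymm
  · -- local generators
    have h1 := Submodule.exists_fun_fin_finrank_span_eq ℂ ((N I x : Submodule ℂ (σ → ℂ)) : Set (σ → ℂ))
    rw [Submodule.span_eq, h.rank x hx] at h1
    obtain ⟨v, hv, -, hvli⟩ := h1
    have h2 : ∀ l, ∃ b ∈ HH I f, dif (∑ k, b k * f k) x = v l := by
      intro l
      obtain ⟨G, hG, hGv⟩ := mem_N.1 (hv l)
      obtain ⟨b, rfl⟩ := mem_PP.1 (h.sub hG)
      exact ⟨b, mem_HH.2 hG, hGv⟩
    choose g hg hgv using h2
    have hli : LinearIndependent ℂ (fun l => dif (∑ k, g l k * f k) x) := by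
      rw [show (fun l => dif (∑ k, g l k * f k) x) = v from funext hgv]
      exact hvli
    have h3 : EE I f x ≤ Submodule.span ℂ (Set.range fun l => ev x (g l)) := by
      intro e he
      obtain ⟨b, hb, rfl⟩ := mem_EE.1 he
      obtain ⟨u, hu, a, ha⟩ := gen_of_li h hx (Fintype.card_fin r) g hg hli hb
      have h4 : eval x u • ev x b = ∑ l, eval x (a l) • ev x (g l) := by
        funext k
        have h5 := eval_PP hx (ha k)
        rw [map_sub, map_mul, map_sum, sub_eq_zero] at h5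
        simp only [Pi.smul_apply, smul_eq_mul, Finset.sum_apply, ev_apply]
        rw [h5]
        exact Finset.sum_congr rfl fun l _ => by rw [map_mul]
      rw [← Submodule.smul_mem_iff _ hu, h4]
      exact Submodule.sum_mem _ fun l _ => Submodule.smul_mem _ _ (Submodule.subset_span ⟨l, rfl⟩)
    refine (Submodule.finrank_mono h3).trans ?_
    have := finrank_range_le_card (R := ℂ) (fun l => ev x (g l))
    rwa [Fintype.card_fin] at this
  · rw [← h.rank x hx, ← map_EE h hx]
    exact Submodule.finrank_map_le _ _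

theorem Phi_inj {I : Ideal (MvPolynomial σ ℂ)} {r : ℕ} {f : K → MvPolynomial σ ℂ} {d : K → ℕ}
    (h : Ctx I r f d) {x : σ → ℂ} (hx : Y f x) {e : K → ℂ} (he : e ∈ EE I f x)
    (h0 : Phi f x e = 0) : e = 0 := by
  have h1 : Function.Injective ((Phi f x).domRestrict (EE I f x)) := by
    have h2 : LinearMap.range ((Phi f x).domRestrict (EE I f x)) = N I x := by
      rw [LinearMap.range_domRestrict, map_EE h hx]
    have h3 := LinearMap.finrank_range_add_finrank_ker ((Phi f x).domRestrict (EE I f x))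
    rw [h2, h.rank x hx, finrank_EE h hx] at h3
    rw [← LinearMap.ker_eq_bot]
    apply Submodule.finrank_eq_zero.1
    omega
  have h4 := @h1 ⟨e, he⟩ 0 (by rw [map_zero]; exact h0)
  exact congrArg Subtype.val h4

theorem li_dif {I : Ideal (MvPolynomial σ ℂ)} {r : ℕ} {f : K → MvPolynomial σ ℂ} {d : K → ℕ}
    (h : Ctx I r f d) {x : σ → ℂ} (hx : Y f x) {A : Type*} [Fintype A]
    (g : A → K → MvPolynomial σ ℂ) (hg : ∀ l, g l ∈ HH I f)
    (hli : LinearIndependent ℂ (fun l => ev x (g l))) :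
    LinearIndependent ℂ (fun l => dif (∑ k, g l k * f k) x) := by
  rw [Fintype.linearIndependent_iff] at hli ⊢
  intro c hc
  apply hli c
  apply Phi_inj h hx
  · exact Submodule.sum_mem _ fun l _ => Submodule.smul_mem _ _ (mem_EE.2 ⟨_, hg l, rfl⟩)
  · rw [map_sum, ← hc]
    refine Finset.sum_congr rfl fun l _ => ?_
    rw [map_smul, dif_comb hx]

/-- F2: local generation of `HH`. -/
theorem local_gen {I : Ideal (MvPolynomial σ ℂ)} {r : ℕ} {f : K → MvPolynomial σ ℂ} {d : K → ℕ}
    (h : Ctx I r f d) {x : σ → ℂ} (hx : Y f x) {A : Type*} [Fintype A]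
    (hA : Fintype.card A = r) (g : A → K → MvPolynomial σ ℂ) (hg : ∀ l, g l ∈ HH I f)
    (hli : LinearIndependent ℂ (fun l => ev x (g l))) :
    ∃ u, eval x u ≠ 0 ∧ ∀ b ∈ HH I f, ∃ a : A → MvPolynomial σ ℂ,
      ∀ k, u * b k - ∑ l, a l * g l k ∈ PP f := by
  classical
  have hli' := li_dif h hx g hg hli
  obtain ⟨s, hs⟩ := (IsNoetherian.noetherian (HH I f) : (HH I f).FG)
  have h1 : ∀ b : s, ∃ u, eval x u ≠ 0 ∧ ∃ a : A → MvPolynomial σ ℂ,
      ∀ k, u * (b : K → MvPolynomial σ ℂ) k - ∑ l, a l * g l k ∈ PP f := by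
    intro b
    exact gen_of_li h hx hA g hg hli' (by rw [← hs]; exact Submodule.subset_span b.2)
  choose u hu ha using h1
  refine ⟨∏ b, u b, ?_, ?_⟩
  · rw [map_prod, Finset.prod_ne_zero_iff]
    exact fun b _ => hu b
  · intro b hb
    rw [← hs] at hb
    induction hb using Submodule.span_induction with
    | mem b hb =>
      obtain ⟨a, ha⟩ := ha ⟨b, hb⟩
      refine ⟨fun l => (∏ b' ∈ Finset.univ.erase (⟨b, hb⟩ : s), u b') * a l, fun k => ?_⟩
      have h2 := (PP f).mul_mem_left (∏ b' ∈ Finset.univ.erase (⟨b, hb⟩ : s), u b') (ha k)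
      rw [mul_sub, Finset.mul_sum] at h2
      convert h2 using 2
      · rw [← Finset.mul_prod_erase Finset.univ u (Finset.mem_univ (⟨b, hb⟩ : s))]
        ring
      · exact Finset.sum_congr rfl fun l _ => by ring
    | zero =>
      exact ⟨fun _ => 0, fun k => by simp⟩
    | add b b' _ _ ih ih' =>
      obtain ⟨a, ha⟩ := ih
      obtain ⟨a', ha'⟩ := ih'
      refine ⟨fun l => a l + a' l, fun k => ?_⟩
      have h2 := (PP f).add_mem (ha k) (ha' k)
      convert h2 using 1
      simp only [Pi.add_apply, add_mul, Finset.sum_add_distrib]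
      ring
    | smul c b _ ih =>
      obtain ⟨a, ha⟩ := ih
      refine ⟨fun l => c * a l, fun k => ?_⟩
      have h2 := (PP f).mul_mem_left c (ha k)
      convert h2 using 1
      simp only [Pi.smul_apply, smul_eq_mul, mul_sub, Finset.mul_sum]
      congr 1
      · ring
      · exact Finset.sum_congr rfl fun l _ => by ring

theorem li_ev_pivot {I : Ideal (MvPolynomial σ ℂ)} {f : K → MvPolynomial σ ℂ} {J : Finset K}
    {x : σ → ℂ} {g : K → K → MvPolynomial σ ℂ} (hg : Pivot I f J x g) :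
    LinearIndependent ℂ (fun l : J => ev x (g l)) := by
  rw [Fintype.linearIndependent_iff]
  intro c hc j
  have h1 := congrFun hc (j : K)
  simp only [Finset.sum_apply, Pi.smul_apply, smul_eq_mul, ev_apply, Pi.zero_apply] at h1
  rw [Finset.sum_eq_single j] at h1
  · rwa [hg.2 j j.2 j j.2, if_pos rfl, mul_one] at h1
  · intro b _ hb
    rw [hg.2 b b.2 j j.2, if_neg (fun h => hb (Subtype.ext h)), mul_zero]
  · intro hj
    exact absurd (Finset.mem_univ j) hj

theorem li_pivot {I : Ideal (MvPolynomial σ ℂ)} {r : ℕ} {f : K → MvPolynomial σ ℂ} {d : K → ℕ}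
    (h : Ctx I r f d) {J : Finset K} (hJr : J.card = r) {x : σ → ℂ} (hx : Y f x)
    {g : K → K → MvPolynomial σ ℂ} (hg : Pivot I f J x g) :
    LinearIndependent ℂ (fun l : J => dif (∑ k, g l k * f k) x) :=
  li_dif h hx (fun l : J => g l) (fun l => hg.1 l) (li_ev_pivot hg)

/-- finitely many forms generate a homogeneous ideal. -/
theorem exists_gens {I : Ideal (MvPolynomial σ ℂ)}
    (hI : ∀ g ∈ I, ∀ e, homogeneousComponent e g ∈ I) :
    ∃ T : Finset (MvPolynomial σ ℂ), (∀ G ∈ T, ∃ e, G.IsHomogeneous e) ∧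
      Ideal.span (T : Set (MvPolynomial σ ℂ)) = I := by
  classical
  obtain ⟨s, hs⟩ := (IsNoetherian.noetherian I : I.FG)
  refine ⟨s.biUnion fun G => (Finset.range (G.totalDegree + 1)).image
    fun e => homogeneousComponent e G, ?_, ?_⟩
  · intro G hG
    obtain ⟨G', -, hG⟩ := Finset.mem_biUnion.1 hG
    obtain ⟨e, -, rfl⟩ := Finset.mem_image.1 hG
    exact ⟨e, homogeneousComponent_isHomogeneous _ _⟩
  · apply le_antisymm
    · rw [Ideal.span_le]
      intro G hG
      obtain ⟨G', hG', hG⟩ := Finset.mem_biUnion.1 (Finset.mem_coe.1 hG)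
      obtain ⟨e, -, rfl⟩ := Finset.mem_image.1 hG
      apply hI
      rw [← hs]
      exact Submodule.subset_span hG'
    · rw [← hs]
      refine Submodule.span_le.2 ?_
      intro G hG
      have h1 : G = ∑ e ∈ Finset.range (G.totalDegree + 1), homogeneousComponent e G :=
        (sum_homogeneousComponent G).symm
      rw [SetLike.mem_coe, h1]
      refine Ideal.sum_mem _ fun e he => Ideal.subset_span ?_
      exact Finset.mem_coe.2 (Finset.mem_biUnion.2 ⟨G, hG, Finset.mem_image.2 ⟨e, he, rfl⟩⟩)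

/-- F3: a graded system of rows. -/
theorem exists_rows {I : Ideal (MvPolynomial σ ℂ)} {r : ℕ} {f : K → MvPolynomial σ ℂ} {d : K → ℕ}
    (h : Ctx I r f d) : ∃ (n E : ℕ) (R : Fin n → K → MvPolynomial σ ℂ),
      (∀ m, R m ∈ HH I f) ∧ (∀ k, d k ≤ E) ∧ (∀ m k, (R m k).IsHomogeneous (E - d k)) ∧
      ∀ x, Y f x → (∀ b ∈ HH I f, ev x b ∈ Submodule.span ℂ (Set.range fun m => ev x (R m))) ∧
        Module.finrank ℂ (Submodule.span ℂ (Set.range fun m => ev x (R m))) = r := by
  classical
  obtain ⟨T, hT, hTI⟩ := exists_gens h.homog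
  have hex : ∀ G : T, ∃ (e : ℕ) (b : K → MvPolynomial σ ℂ),
      (∀ k, b k = 0 ∨ (d k ≤ e ∧ (b k).IsHomogeneous (e - d k))) ∧
      (G : MvPolynomial σ ℂ) = ∑ k, b k * f k := by
    intro G
    obtain ⟨e, he⟩ := hT G G.2
    obtain ⟨b, hb, hb'⟩ := Theta.exists_expansion f d h.hom rfl
      (h.sub (hTI ▸ Ideal.subset_span G.2)) he
    exact ⟨e, b, hb, hb'⟩
  choose e b hb hbG using hex
  set E := (Finset.univ.sup e) + (Finset.univ.sup d) with hE
  have heE : ∀ G, e G ≤ E := fun G => (Finset.le_sup (Finset.mem_univ G)).trans (Nat.le_add_right _ _)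
  have hdE : ∀ k, d k ≤ E := fun k => (Finset.le_sup (Finset.mem_univ k)).trans (Nat.le_add_left _ _)
  let R₀ : T × σ → K → MvPolynomial σ ℂ := fun p k => X p.2 ^ (E - e p.1) * b p.1 k
  let φ := (Fintype.equivFin (T × σ)).symm
  have hbI : ∀ G, b G ∈ HH I f := fun G => by
    rw [mem_HH, ← hbG G, ← hTI]
    exact Ideal.subset_span G.2
  have hR₀ : ∀ p, R₀ p ∈ HH I f := fun p => (HH I f).smul_mem (X p.2 ^ (E - e p.1)) (hbI p.1)
  have key : ∀ x, Y f x → Submodule.span ℂ (Set.range fun m => ev x (R₀ (φ m))) = EE I f x := by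
    intro x hx
    have hr : (Set.range fun m => ev x (R₀ (φ m))) = Set.range fun p => ev x (R₀ p) :=
      φ.surjective.range_comp (fun p => ev x (R₀ p))
    rw [hr]
    apply le_antisymm
    · rw [Submodule.span_le]
      rintro _ ⟨p, rfl⟩
      exact mem_EE.2 ⟨_, hR₀ p, rfl⟩
    · intro v hv
      obtain ⟨c, hc, rfl⟩ := mem_EE.1 hv
      have h1 : ∑ k, c k * f k ∈ Ideal.span (Set.range fun G : T => (G : MvPolynomial σ ℂ)) := by
        rw [Subtype.range_coe_subtype]
        change _ ∈ Ideal.span (T : Set (MvPolynomial σ ℂ))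
        rw [hTI]; exact hc
      obtain ⟨a, ha⟩ := Ideal.mem_span_range_iff_exists_fun.1 h1
      have h2 : ∀ k, c k - ∑ G, a G * b G k ∈ PP f := fun k => by
        refine coef_mem_zero h.toCIx (a := fun k => c k - ∑ G, a G * b G k) ?_ k
        simp only [sub_mul, Finset.sum_sub_distrib, Finset.sum_mul]
        rw [sub_eq_zero, ← ha, Finset.sum_comm]
        refine Finset.sum_congr rfl fun G _ => ?_
        rw [hbG G, Finset.mul_sum]
        exact Finset.sum_congr rfl fun k _ => by ring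
      have h3 : ev x c = ∑ G, eval x (a G) • ev x (b G) := by
        funext k
        have h5 := eval_PP hx (h2 k)
        rw [map_sub, map_sum, sub_eq_zero] at h5
        simp only [Finset.sum_apply, Pi.smul_apply, smul_eq_mul, ev_apply]
        rw [h5]
        exact Finset.sum_congr rfl fun l _ => by rw [map_mul]
      rw [h3]
      refine Submodule.sum_mem _ fun G _ => Submodule.smul_mem _ _ ?_
      obtain ⟨i, hi⟩ := exists_coord hx.1
      have h4 : ev x (R₀ (G, i)) = x i ^ (E - e G) • ev x (b G) := by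
        funext k
        simp only [R₀, ev_apply, map_mul, map_pow, eval_X, Pi.smul_apply, smul_eq_mul]
      rw [← Submodule.smul_mem_iff _ (pow_ne_zero (E - e G) hi), ← h4]
      exact Submodule.subset_span ⟨(G, i), rfl⟩
  refine ⟨Fintype.card (T × σ), E, fun m => R₀ (φ m), fun m => hR₀ _, hdE, ?_, ?_⟩
  · intro m k
    change (X (φ m).2 ^ (E - e (φ m).1) * b (φ m).1 k).IsHomogeneous (E - d k)
    rcases hb (φ m).1 k with h1 | ⟨h1, h2⟩
    · rw [h1, mul_zero]
      exact isHomogeneous_zero _ _ _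
    · have h3 := ((isHomogeneous_X ℂ (φ m).2).pow (E - e (φ m).1)).mul h2
      have h4 : 1 * (E - e (φ m).1) + (e (φ m).1 - d k) = E - d k := by
        have := heE (φ m).1
        omega
      rwa [h4] at h3
  · intro x hx
    rw [key x hx]
    exact ⟨fun b hb => mem_EE.2 ⟨b, hb, rfl⟩, finrank_EE h hx⟩

/-- F4: one pivot set for all points. -/
theorem exists_pivot {I : Ideal (MvPolynomial σ ℂ)} {r : ℕ} {f : K → MvPolynomial σ ℂ} {d : K → ℕ}
    (h : Ctx I r f d) : ∃ J : Finset K, J.card = r ∧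
      ∀ x, Y f x → ∃ g : K → K → MvPolynomial σ ℂ, Pivot I f J x g := by
  classical
  obtain ⟨n, E, R, hR, hdE, hRh, hsp⟩ := exists_rows h
  set e₀ := (Fintype.equivFin K).symm with he₀
  set dg₀ : Fin (Fintype.card K) → ℕ := fun a => E - d (e₀ a) with hdg₀
  let e : Fin (Fintype.card K) ≃ K := (Tuple.sort dg₀).trans e₀
  have hmono : Monotone (fun a => E - d (e a)) := Tuple.monotone_sort dg₀
  -- rank of the columns
  have hcol : ∀ x, Y f x → Module.finrank ℂ (Submodule.span ℂ
      (Set.range fun a => ev x (fun m => R m (e a)))) = r := by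
    intro x hx
    have h1 := (Matrix.of fun (m : Fin n) (a : Fin (Fintype.card K)) =>
      eval x (R m (e a))).rank_eq_finrank_span_cols
    have h2 := (Matrix.of fun (m : Fin n) (a : K) => eval x (R m a)).rank_eq_finrank_span_cols
    have h3 := (Matrix.of fun (m : Fin n) (a : K) => eval x (R m a)).rank_eq_finrank_span_row
    have h4 : Set.range (Matrix.of fun (m : Fin n) (a : K) => eval x (R m a)).row =
        Set.range fun m => ev x (R m) := rfl
    rw [h4, (hsp x hx).2] at h3
    rw [h3] at h2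
    have h5 : (Set.range fun a => ev x (fun m => R m (e a))) =
        Set.range (Matrix.of fun (m : Fin n) (a : K) => eval x (R m a)).col :=
      e.surjective.range_comp (fun a => ev x (fun m => R m a))
    rw [h5, ← h2]
  obtain ⟨B, hB⟩ := greedyV f (fun k => ⟨d k, h.hom k⟩) (fun a m => R m (e a))
    (fun a => E - d (e a)) (fun a m => hRh m (e a)) hmono r hcol (by
      have := h.big
      rw [Fintype.card_fin]
      omega) (exists_Y h.toCIx)
  refine ⟨B.map e.toEmbedding, ?_, ?_⟩
  · obtain ⟨x, hx⟩ := exists_Y h.toCIx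
    have h1 := finrank_span_eq_card (hB x hx).1
    rw [(hB x hx).2, hcol x hx, Fintype.card_coe] at h1
    rw [Finset.card_map]
    exact h1.symm
  · intro x hx
    obtain ⟨l, hl⟩ := exists_dual_gen _ (hB x hx).1
    refine ⟨fun j k => if hj : e.symm j ∈ B then ∑ m, C (l ⟨e.symm j, hj⟩ m) * R m k else 0,
      ?_, ?_⟩
    · intro j
      by_cases hj : e.symm j ∈ B
      · have h1 : (fun k => if hj : e.symm j ∈ B then
            ∑ m, C (l ⟨e.symm j, hj⟩ m) * R m k else 0) =
            ∑ m, (C (l ⟨e.symm j, hj⟩ m) : MvPolynomial σ ℂ) • R m := by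
          funext k
          rw [dif_pos hj]
          simp
        beta_reduce
        rw [h1]
        exact Submodule.sum_mem _ fun m _ => Submodule.smul_mem _ _ (hR m)
      · have h1 : (fun k => if hj : e.symm j ∈ B then
            ∑ m, C (l ⟨e.symm j, hj⟩ m) * R m k else 0) = (0 : K → MvPolynomial σ ℂ) := by
          funext k
          rw [dif_neg hj]
          rfl
        beta_reduce
        rw [h1]
        exact Submodule.zero_mem _
    · intro j hj k hk
      obtain ⟨a, ha, rfl⟩ := Finset.mem_map.1 hj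
      obtain ⟨b, hb, rfl⟩ := Finset.mem_map.1 hk
      simp only [Equiv.coe_toEmbedding, Equiv.symm_apply_apply]
      rw [dif_pos ha]
      have h1 := hl ⟨b, hb⟩ ⟨a, ha⟩
      have h2 : eval x (∑ m, C (l ⟨a, ha⟩ m) * R m (e b)) =
          ev x (fun m => R m (e b)) ⬝ᵥ l ⟨a, ha⟩ := by
        simp only [map_sum, map_mul, eval_C, dotProduct, ev_apply]
        exact Finset.sum_congr rfl fun m _ => mul_comm _ _
      rw [h2, h1]
      by_cases hab : a = b
      · subst hab; simp
      · rw [if_neg, if_neg]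
        · intro h; exact hab (e.injective h)
        · intro h; exact hab (congrArg Subtype.val h).symm

end

end H71.CI
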