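import Pool.Agent.H71.CI.QMod
import Pool.Agent.H71.CI.QMod2
import Pool.Agent.H71.CI.Depth
import Pool.Agent.H71.CI.QRci
import Pool.Agent.H71.CI.Local
import Pool.Agent.H71.CI.Rows

/-!
# SubCI, module H: the `f i` off the pivot set are quasi-regular on `V(I)`
-/

open MvPolynomial

set_option linter.unusedSectionVars false
set_option linter.unusedVariables false

namespace H71.CI

open H89.Hart H94.Cubic H94.Deg

section

variable {σ : Type*} [Fintype σ] [DecidableEq σ] {K : Type*} [Fintype K] [DecidableEq K]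

/-! ### Module H -/

/-- the rows of the transformation: the `g l` (`l ∈ J`) and the unit vectors off `J`. -/
noncomputable def trM (J : Finset K) (g : K → K → MvPolynomial σ ℂ) :
    Matrix K K (MvPolynomial σ ℂ) :=
  Matrix.of fun l k => if l ∈ J then g l k else if l = k then 1 else 0

theorem trM_mem {J : Finset K} {g : K → K → MvPolynomial σ ℂ} {l : K} (hl : l ∈ J) (k : K) :
    trM J g l k = g l k := by
  rw [trM, Matrix.of_apply, if_pos hl]

theorem trM_notMem {J : Finset K} {g : K → K → MvPolynomial σ ℂ} {l : K} (hl : l ∉ J) (k : K) :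
    trM J g l k = if l = k then 1 else 0 := by
  rw [trM, Matrix.of_apply, if_neg hl]

/-- the determinant of the transformation is `1` at the point. -/
theorem eval_det_trM {I : Ideal (MvPolynomial σ ℂ)} {f : K → MvPolynomial σ ℂ} {J : Finset K}
    {x : σ → ℂ} {g : K → K → MvPolynomial σ ℂ} (hg : Pivot I f J x g) :
    eval x (trM J g).det ≠ 0 := by
  rw [RingHom.map_det]
  intro h0
  obtain ⟨v, hv, hv0⟩ := Matrix.exists_mulVec_eq_zero_iff.2 h0
  apply hv
  have h1 : ∀ i, i ∉ J → v i = 0 := by
    intro i hi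
    have h2 := congrFun hv0 i
    rw [Matrix.mulVec, dotProduct, Finset.sum_eq_single i] at h2
    · rw [RingHom.mapMatrix_apply, Matrix.map_apply, trM_notMem hi, if_pos rfl] at h2
      simpa using h2
    · intro b _ hb
      rw [RingHom.mapMatrix_apply, Matrix.map_apply, trM_notMem hi, if_neg (Ne.symm hb)]
      simp
    · intro h; exact absurd (Finset.mem_univ i) h
  funext i
  by_cases hi : i ∈ J
  · have h2 := congrFun hv0 i
    rw [Matrix.mulVec, dotProduct, Finset.sum_eq_single i] at h2
    · rw [RingHom.mapMatrix_apply, Matrix.map_apply, trM_mem hi, hg.2 i hi i hi, if_pos rfl] at h2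
      simpa using h2
    · intro b _ hb
      by_cases hbJ : b ∈ J
      · rw [RingHom.mapMatrix_apply, Matrix.map_apply, trM_mem hi, hg.2 i hi b hbJ,
          if_neg (Ne.symm hb), zero_mul]
      · rw [h1 b hbJ, mul_zero]
    · intro h; exact absurd (Finset.mem_univ i) h
  · exact h1 i hi

/-- H: the `f i` with `i ∉ J` are quasi-regular on `V(I)` along the complete intersection. -/
theorem indep {I : Ideal (MvPolynomial σ ℂ)} {r : ℕ} {f : K → MvPolynomial σ ℂ} {d : K → ℕ}
    (h : Ctx I r f d) {J : Finset K} (hJr : J.card = r) {x : σ → ℂ} (hx : Y f x)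
    {g : K → K → MvPolynomial σ ℂ} (hg : Pivot I f J x g) {ν : ℕ}
    {F : MvPolynomial {k // k ∉ J} (MvPolynomial σ ℂ)} (hF : F.IsHomogeneous ν)
    (hloc : eval (fun k : {k // k ∉ J} => f k) F ∈ I) (m : {k // k ∉ J} →₀ ℕ) :
    Loc x (PP f) (coeff m F) := by
  classical
  have hmax : (mI x).IsPrime := RingHom.ker_isPrime _
  set B := Localization.AtPrime (mI x) with hB
  set φ : MvPolynomial σ ℂ →+* B := algebraMap (MvPolynomial σ ℂ) B with hφ
  have hunit : ∀ u : MvPolynomial σ ℂ, eval x u ≠ 0 → IsUnit (φ u) := by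
    intro u hu
    exact IsLocalization.map_units B (⟨u, fun hm => hu (mem_mI.1 hm)⟩ : (mI x).primeCompl)
  -- the transformed family
  set G : J → MvPolynomial σ ℂ := fun l => ∑ k, g l k * f k with hG
  have hGI : ∀ l, G l ∈ I := fun l => hg.1 l
  have h1 : QR ⊥ (fun k => φ (f k)) := QR_loc (mI x).primeCompl f (QR_of_CIx h.toCIx)
  have h2 : QR ⊥ (fun l => ∑ k, (φ.mapMatrix (trM J g)) l k * φ (f k)) := by
    have hd : IsUnit (φ.mapMatrix (trM J g)).det := by
      rw [← RingHom.map_det]
      exact hunit _ (eval_det_trM hg)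
    exact QR_trans _ _ (φ.mapMatrix (trM J g))⁻¹ (Matrix.mul_nonsing_inv _ hd)
      (Matrix.nonsing_inv_mul _ hd) h1
  -- reindex
  have h3 : QR ⊥ (Sum.elim (fun l : J => φ (G l)) (fun i : {k // k ∉ J} => φ (f i))) := by
    have h4 := QR_equiv (Equiv.sumCompl (fun k => k ∈ J)) _ h2
    have h5 : (fun t => (fun l => ∑ k, (φ.mapMatrix (trM J g)) l k * φ (f k))
        ((Equiv.sumCompl (fun k => k ∈ J)) t)) =
        Sum.elim (fun l : J => φ (G l)) (fun i : {k // k ∉ J} => φ (f i)) := by
      funext t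
      rcases t with l | i
      · change ∑ k, (φ.mapMatrix (trM J g)) (l : K) k * φ (f k) = φ (∑ k, g l k * f k)
        rw [map_sum]
        refine Finset.sum_congr rfl fun k _ => ?_
        rw [RingHom.mapMatrix_apply, Matrix.map_apply, trM_mem l.2, map_mul]
      · change ∑ k, (φ.mapMatrix (trM J g)) (i : K) k * φ (f k) = φ (f i)
        rw [Finset.sum_eq_single (i : K)]
        · rw [RingHom.mapMatrix_apply, Matrix.map_apply, trM_notMem i.2, if_pos rfl, map_one,
            one_mul]
        · intro b _ hb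
          rw [RingHom.mapMatrix_apply, Matrix.map_apply, trM_notMem i.2, if_neg (Ne.symm hb),
            map_zero, zero_mul]
        · intro h; exact absurd (Finset.mem_univ _) h
    rw [h5] at h4
    exact h4
  have h4 := QR_quot_fin _ _ h3
  have hcone : x ∈ cone I := by
    intro a ha
    have h5 : PP f ≤ RingHom.ker (eval x) := by
      rw [PP, Ideal.span_le]
      rintro _ ⟨k, rfl⟩
      exact RingHom.mem_ker.2 (hx.2 k)
    exact RingHom.mem_ker.1 (h5 (h.sub ha))
  -- the element
  obtain ⟨u, hu, huF⟩ : ∃ u, eval x u ≠ 0 ∧ u * eval (fun k : {k // k ∉ J} => f k) F ∈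
      Ideal.span (Set.range G) :=
    L0s h.prime h.dim (by simpa using hJr) G hGI hcone hx.1 (li_pivot h hJr hx hg) hloc
  have h6 : φ (eval (fun k : {k // k ∉ J} => f k) F) ∈
      Ideal.span (Set.range fun l : J => φ (G l)) := by
    have h7 := Ideal.mem_map_of_mem φ huF
    rw [map_mul, Ideal.unit_mul_mem_iff_mem _ (hunit u hu), Ideal.map_span,
      ← Set.range_comp] at h7
    exact h7
  have h7 : eval (fun i : {k // k ∉ J} => φ (f i)) (map φ F) =
      φ (eval (fun k : {k // k ∉ J} => f k) F) := by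
    rw [eval_map, ← eval₂_id, eval₂_comp_left]
    rfl
  have h8 := h4 ν (map φ F) (hF.map φ) (by rw [h7]; exact Ideal.mem_sup_left h6) m
  rw [coeff_map] at h8
  have h9 : Ideal.span (Set.range fun l : J => φ (G l)) ⊔
      Ideal.span (Set.range fun i : {k // k ∉ J} => φ (f i)) ≤ (PP f).map φ := by
    refine sup_le ?_ ?_
    · rw [Ideal.span_le]
      rintro _ ⟨l, rfl⟩
      exact Ideal.mem_map_of_mem φ (h.sub (hGI l))
    · rw [Ideal.span_le]
      rintro _ ⟨i, rfl⟩
      exact Ideal.mem_map_of_mem φ (Ideal.subset_span ⟨i, rfl⟩)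
  obtain ⟨⟨p, s⟩, hps⟩ := (IsLocalization.mem_map_algebraMap_iff (mI x).primeCompl B).1 (h9 h8)
  refine ⟨s, fun h0 => s.2 (mem_mI.2 h0), ?_⟩
  have hinj : Function.Injective φ :=
    IsLocalization.injective B (mI x).primeCompl_le_nonZeroDivisors
  have h10 : (s : MvPolynomial σ ℂ) * coeff m F = p := by
    apply hinj
    rw [map_mul, mul_comm]
    exact hps
  rw [h10]
  exact p.2

end

end H71.CI
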