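import Pool.Agent.H71.CI.Theta
import Pool.Agent.H71.CI.Indep
import Pool.Agent.H71.CI.ExtA
import Pool.Agent.H71.CI.ExtB

/-!
# Extension by order along the complete intersection
-/

open MvPolynomial

set_option linter.unusedSectionVars false
set_option linter.unusedVariables false

namespace H71.CI

open H89.Hart H94.Cubic H94.Deg

section

variable {σ : Type*} [Fintype σ] [DecidableEq σ] {K : Type*} [Fintype K] [DecidableEq K]

theorem prod_mem_pow (f : K → MvPolynomial σ ℂ) {J : Finset K} (m : {k // k ∉ J} →₀ ℕ) :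
    (∏ k : {k // k ∉ J}, f k ^ m k) ∈ PP f ^ m.degree := by
  rw [Finsupp.degree_eq_sum, ← Finset.prod_pow_eq_pow_sum]
  exact Ideal.prod_mem_prod fun k _ => Ideal.pow_mem_pow (f_mem f k) _

theorem degree_of_coeff {R T : Type*} [CommRing R] {a : ℕ} {F : MvPolynomial T R}
    (hF : F.IsHomogeneous a) {m : T →₀ ℕ} (hm : coeff m F ≠ 0) : m.degree = a := by
  have h1 := hF hm
  rwa [Finsupp.degree_eq_weight_one]

/-- forms in the `f i` with coefficients in `PP f`. -/
theorem eval_mem_pow_succ (f : K → MvPolynomial σ ℂ) {J : Finset K} {a : ℕ}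
    {F : MvPolynomial {k // k ∉ J} (MvPolynomial σ ℂ)} (hF : F.IsHomogeneous a)
    (hc : ∀ m, coeff m F ∈ PP f) :
    eval (fun k : {k // k ∉ J} => f k) F ∈ PP f ^ (a + 1) := by
  rw [eval_eq']
  refine Ideal.sum_mem _ fun m hm => ?_
  rw [pow_succ', ← degree_of_coeff hF (mem_support_iff.1 hm)]
  exact Ideal.mul_mem_mul (hc m) (prod_mem_pow f m)

theorem eval_mem_pow (f : K → MvPolynomial σ ℂ) {J : Finset K} {a : ℕ}
    {F : MvPolynomial {k // k ∉ J} (MvPolynomial σ ℂ)} (hF : F.IsHomogeneous a) :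
    eval (fun k : {k // k ∉ J} => f k) F ∈ PP f ^ a := by
  rw [eval_eq']
  refine Ideal.sum_mem _ fun m hm => ?_
  rw [← degree_of_coeff hF (mem_support_iff.1 hm)]
  exact Ideal.mul_mem_left _ _ (prod_mem_pow f m)

/-- L2: one step. -/
theorem ext_step {I : Ideal (MvPolynomial σ ℂ)} {r : ℕ} {f : K → MvPolynomial σ ℂ} {d : K → ℕ}
    (h : Ctx I r f d) {J : Finset K} (hJr : J.card = r)
    (hJ : ∀ x, Y f x → ∃ g : K → K → MvPolynomial σ ℂ, Pivot I f J x g) {a e : ℕ}
    {G : MvPolynomial σ ℂ} (hGe : G.IsHomogeneous e)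
    (hG : ∀ x, Y f x → Loc x (I ⊔ PP f ^ a) G) :
    ∃ q ∈ PP f ^ a, q.IsHomogeneous e ∧ ∀ x, Y f x → Loc x (I ⊔ PP f ^ (a + 1)) (G - q) := by
  rcases isEmpty_or_nonempty K with hK | hK
  · rcases a with _ | a
    · refine ⟨G, by simp, hGe, fun x hx => ⟨1, by simp, ?_⟩⟩
      rw [sub_self, mul_zero]
      exact Ideal.zero_mem _
    · refine ⟨0, Ideal.zero_mem _, isHomogeneous_zero _ _ _, fun x hx => ?_⟩
      have h0 : PP f = ⊥ := by rw [PP, Set.range_eq_empty, Ideal.span_empty]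
      obtain ⟨u, hu, hm⟩ := hG x hx
      refine ⟨u, hu, ?_⟩
      rw [h0, Ideal.bot_pow (Nat.succ_ne_zero _)] at hm ⊢
      rwa [sub_zero]
  set fT : {k // k ∉ J} → MvPolynomial σ ℂ := fun k => f k with hfT
  let D : Submodule (MvPolynomial σ ℂ)
      (MvPolynomial σ ℂ × (({k // k ∉ J} →₀ ℕ) → MvPolynomial σ ℂ)) :=
    { carrier := {p | ∃ F : MvPolynomial {k // k ∉ J} (MvPolynomial σ ℂ), F.IsHomogeneous a ∧
        (∀ m, p.2 m = coeff m F) ∧ p.1 * G - eval fT F ∈ I}
      add_mem' := by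
        rintro p q ⟨F, hF, hFc, hFI⟩ ⟨F', hF', hFc', hFI'⟩
        refine ⟨F + F', hF.add hF', fun m => ?_, ?_⟩
        · rw [Prod.snd_add, Pi.add_apply, hFc, hFc', coeff_add]
        · have := I.add_mem hFI hFI'
          convert this using 1
          rw [Prod.fst_add, map_add]
          ring
      zero_mem' := ⟨0, isHomogeneous_zero _ _ _, fun m => by simp, by simp⟩
      smul_mem' := by
        rintro c p ⟨F, hF, hFc, hFI⟩
        refine ⟨C c * F, ?_, fun m => ?_, ?_⟩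
        · have := (isHomogeneous_C _ c).mul hF
          rwa [zero_add] at this
        · rw [Prod.smul_snd, Pi.smul_apply, hFc, coeff_C_mul, smul_eq_mul]
        · have := I.mul_mem_left c hFI
          convert this using 1
          rw [Prod.smul_fst, map_mul, eval_C, smul_eq_mul]
          ring }
  have hD : ∀ p, p ∈ D ↔ ∃ F : MvPolynomial {k // k ∉ J} (MvPolynomial σ ℂ),
      F.IsHomogeneous a ∧ (∀ m, p.2 m = coeff m F) ∧ p.1 * G - eval fT F ∈ I := fun p => Iff.rfl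
  have hD1 : ∀ b, ((0 : MvPolynomial σ ℂ), b) ∈ D → ∀ m, b m ∈ PP f := by
    intro b hb m
    obtain ⟨F, hF, hFc, hFI⟩ := (hD _).1 hb
    simp only [zero_mul, zero_sub] at hFI
    rw [neg_mem_iff] at hFI
    apply sat_one h.toCIx
    intro x hx
    obtain ⟨g, hg⟩ := hJ x hx
    have := indep h hJr hx hg hF hFI m
    rwa [← hFc] at this
  have hD2 : ∀ x, Y f x → ∃ p ∈ D, eval x p.1 ≠ 0 := by
    intro x hx
    obtain ⟨g, hg⟩ := hJ x hx
    obtain ⟨u, F, hu, hF, hFI⟩ := loc_pow h hx hg (hG x hx)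
    exact ⟨(u, fun m => coeff m F), (hD _).2 ⟨F, hF, fun m => rfl, hFI⟩, hu⟩
  obtain ⟨t, ht⟩ := glue h.toCIx D hD1 hD2
  -- the correction
  set F₀ : MvPolynomial {k // k ∉ J} (MvPolynomial σ ℂ) :=
    ∑ m ∈ Finset.finsuppAntidiag Finset.univ a, monomial m (t m) with hF₀
  have hF₀h : F₀.IsHomogeneous a := by
    refine IsHomogeneous.sum _ _ _ fun m hm => isHomogeneous_monomial _ ?_
    rw [Finset.mem_finsuppAntidiag] at hm
    rw [Finsupp.degree_eq_sum]
    exact hm.1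
  have hF₀c : ∀ m : {k // k ∉ J} →₀ ℕ, m.degree = a → coeff m F₀ = t m := by
    intro m hm
    rw [hF₀, coeff_sum, Finset.sum_eq_single m]
    · rw [coeff_monomial, if_pos rfl]
    · intro m' _ hm'
      rw [coeff_monomial, if_neg hm']
    · intro hm'
      exfalso
      apply hm'
      rw [Finset.mem_finsuppAntidiag]
      rw [Finsupp.degree_eq_sum] at hm
      exact ⟨hm, Finset.subset_univ _⟩
  set q₀ := eval fT F₀ with hq₀
  have hq₀P : q₀ ∈ PP f ^ a := eval_mem_pow f hF₀h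
  have hloc : ∀ x, Y f x → Loc x (I ⊔ PP f ^ (a + 1)) (G - q₀) := by
    intro x hx
    obtain ⟨p, hp, hpx⟩ := hD2 x hx
    have h1 := ht p hp
    obtain ⟨F, hF, hFc, hFI⟩ := (hD _).1 hp
    refine ⟨p.1, hpx, ?_⟩
    have h2 : p.1 * (G - q₀) = (p.1 * G - eval fT F) + eval fT (F - C p.1 * F₀) := by
      rw [map_sub, map_mul, eval_C, hq₀]
      ring
    rw [h2]
    refine Ideal.add_mem _ (Ideal.mem_sup_left hFI) (Ideal.mem_sup_right ?_)
    have h3 : (C p.1 * F₀ : MvPolynomial {k // k ∉ J} (MvPolynomial σ ℂ)).IsHomogeneous a := by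
      have := (isHomogeneous_C {k // k ∉ J} p.1).mul hF₀h
      rwa [zero_add] at this
    refine eval_mem_pow_succ f (hF.sub h3) fun m => ?_
    rw [coeff_sub, coeff_C_mul]
    by_cases hm : m.degree = a
    · rw [hF₀c m hm, ← hFc]
      exact h1 m
    · have h4 : coeff m F = 0 := by
        by_contra hne
        exact hm (degree_of_coeff hF hne)
      have h5 : coeff m F₀ = 0 := by
        by_contra hne
        exact hm (degree_of_coeff hF₀h hne)
      rw [h4, h5, mul_zero, sub_zero]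
      exact Ideal.zero_mem _
  refine ⟨homogeneousComponent e q₀, homI_pow (homI_PP h.toCIx) a _ hq₀P e,
    homogeneousComponent_isHomogeneous _ _, fun x hx => ?_⟩
  have h1 := loc_comp h hloc e hx
  rwa [map_sub, homogeneousComponent_of_mem ((mem_homogeneousSubmodule _ _).2 hGe),
    if_pos rfl] at h1

theorem Loc.mono {x : σ → ℂ} {c c' : Ideal (MvPolynomial σ ℂ)} (hc : c ≤ c')
    {a : MvPolynomial σ ℂ} (h : Loc x c a) : Loc x c' a := by
  obtain ⟨u, hu, hm⟩ := h
  exact ⟨u, hu, hc hm⟩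

/-- L5: all orders. -/
theorem exists_G {I : Ideal (MvPolynomial σ ℂ)} {r : ℕ} {f : K → MvPolynomial σ ℂ} {d : K → ℕ}
    (h : Ctx I r f d) : ∃ (J : Finset K) (G : K → MvPolynomial σ ℂ)
      (t : K → K → MvPolynomial σ ℂ), J.card = r ∧ ∀ j ∈ J, G j ∈ I ∧
        (G j).IsHomogeneous (d j) ∧ G j - (f j + ∑ i ∈ Jᶜ, t i j * f i) ∈ PP f ^ 2 := by
  obtain ⟨J, hJr, hJ⟩ := exists_pivot h
  obtain ⟨t, ht⟩ := exists_first h hJr hJ
  obtain ⟨y, hy⟩ := exists_Y h.toCIx
  have key : ∀ j ∈ J, ∃ G ∈ I, G.IsHomogeneous (d j) ∧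
      G - (f j + ∑ i ∈ Jᶜ, t i j * f i) ∈ PP f ^ 2 := by
    intro j hj
    have h1 : ∀ a, ∃ G : MvPolynomial σ ℂ, G.IsHomogeneous (d j) ∧
        (∀ x, Y f x → Loc x (I ⊔ PP f ^ (a + 2)) G) ∧
        G - (f j + ∑ i ∈ Jᶜ, t i j * f i) ∈ PP f ^ 2 := by
      intro a
      induction a with
      | zero =>
        exact ⟨_, (ht j hj).1, (ht j hj).2, by rw [sub_self]; exact Ideal.zero_mem _⟩
      | succ a ih =>
        obtain ⟨G, hGh, hGl, hG2⟩ := ih
        obtain ⟨q, hq, hqh, hql⟩ := ext_step h hJr hJ hGh hGl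
        refine ⟨G - q, hGh.sub hqh, ?_, ?_⟩
        · rw [show a + 1 + 2 = a + 2 + 1 by ring]
          exact hql
        · have h2 : G - q - (f j + ∑ i ∈ Jᶜ, t i j * f i) =
              G - (f j + ∑ i ∈ Jᶜ, t i j * f i) - q := by ring
          rw [h2]
          exact Ideal.sub_mem _ hG2 (Ideal.pow_le_pow_right (Nat.le_add_left 2 a) hq)
    obtain ⟨G, hGh, hGl, hG2⟩ := h1 (d j)
    have h3 : ∀ b, ∀ x, Y f x → Loc x (I ⊔ PP f ^ (d j + 2 + b)) G := by
      intro b
      induction b with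
      | zero => exact hGl
      | succ b ih =>
        obtain ⟨q, hq, hqh, hql⟩ := ext_step h hJr hJ hGh ih
        have h4 : q = 0 := eq_zero_of_pow h.toCIx (by omega) hq hqh
        rw [h4, sub_zero] at hql
        exact hql
    refine ⟨G, mem_of_all h hy fun a => ?_, hGh, hG2⟩
    refine (h3 a y hy).mono (sup_le_sup_left (Ideal.pow_le_pow_right ?_) _)
    omega
  choose! G hG using key
  exact ⟨J, G, t, hJr, fun j hj => ⟨(hG j hj).1, (hG j hj).2.1, (hG j hj).2.2⟩⟩

end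

end H71.CI
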