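import Pool.Agent.H71.CI.Rows
import Pool.Agent.H71.CI.Depth
import Pool.Agent.H71.CI.Local
import Pool.Agent.H71.CI.Ext

/-!
# Varieties containing a complete intersection: the main theorem
-/

open MvPolynomial

set_option linter.unusedSectionVars false
set_option linter.unusedVariables false

namespace H71.CI

open H89.Hart H94.Cubic H94.Deg

section

variable {σ : Type*} [Fintype σ] [DecidableEq σ] {K : Type*} [Fintype K] [DecidableEq K]

/-- M1: the `G j` have independent differentials along the complete intersection. -/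
theorem li_G {I : Ideal (MvPolynomial σ ℂ)} {r : ℕ} {f : K → MvPolynomial σ ℂ} {d : K → ℕ}
    (h : Ctx I r f d) {J : Finset K} (hJr : J.card = r) {G : K → MvPolynomial σ ℂ}
    {t : K → K → MvPolynomial σ ℂ} (hG : ∀ j ∈ J, G j ∈ I)
    (hG2 : ∀ j ∈ J, G j - (f j + ∑ i ∈ Jᶜ, t i j * f i) ∈ PP f ^ 2) {x : σ → ℂ} (hx : Y f x) :
    LinearIndependent ℂ (fun j : J => dif (G j) x) := by
  classical
  have h1 : ∀ j : J, ∃ b : K → MvPolynomial σ ℂ, ∑ k, b k * f k = G j := fun j =>
    mem_PP.1 (h.sub (hG j j.2))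
  choose b hb using h1
  let g : K → K → MvPolynomial σ ℂ := fun l => if hl : l ∈ J then b ⟨l, hl⟩ else 0
  have hgl : ∀ l : J, g l = b l := fun l => by
    change (if hl : (l : K) ∈ J then b ⟨l, hl⟩ else 0) = b l
    rw [dif_pos l.2]
  have hP : Pivot I f J x g := by
    refine ⟨?_, ?_⟩
    · intro l
      by_cases hl : l ∈ J
      · have h2 := hgl ⟨l, hl⟩
        change g l = _ at h2
        rw [h2, mem_HH, hb]
        exact hG l hl
      · have h2 : g l = 0 := dif_neg hl
        rw [h2]
        exact Submodule.zero_mem _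
    · intro l hl j hj
      have h2 := hgl ⟨l, hl⟩
      change g l = _ at h2
      rw [h2]
      have h3 : ∑ k, (b ⟨l, hl⟩ k - ((if k = l then 1 else 0) +
          if k ∈ Jᶜ then t k l else 0)) * f k ∈ PP f ^ 2 := by
        have h4 : ∑ k, (b ⟨l, hl⟩ k - ((if k = l then 1 else 0) +
            if k ∈ Jᶜ then t k l else 0)) * f k = G l - (f l + ∑ i ∈ Jᶜ, t i l * f i) := by
          simp only [sub_mul, add_mul, Finset.sum_sub_distrib, Finset.sum_add_distrib, hb,
            ite_mul, one_mul, zero_mul]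
          rw [Finset.sum_ite_eq', if_pos (Finset.mem_univ _), Finset.sum_ite_mem,
            Finset.univ_inter]
        rw [h4]
        exact hG2 l hl
      have h5 := eval_PP hx (coef_mem h.toCIx h3 j)
      have hjc : j ∉ Jᶜ := by simpa using hj
      rw [if_neg hjc, add_zero, map_sub, sub_eq_zero] at h5
      rw [h5]
      by_cases hjl : j = l
      · rw [if_pos hjl, if_pos hjl.symm, map_one]
      · rw [if_neg hjl, if_neg (Ne.symm hjl), map_zero]
  have h6 := li_pivot h hJr hx hP
  have h7 : (fun l : J => dif (∑ k, g l k * f k) x) = fun j : J => dif (G j) x := by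
    funext l
    rw [hgl, hb]
  rwa [h7] at h6

/-- M2: the main theorem. -/
theorem main {I : Ideal (MvPolynomial σ ℂ)} {r : ℕ} {f : K → MvPolynomial σ ℂ} {d : K → ℕ}
    (h : Ctx I r f d) : ∃ (J : Finset K) (G : K → MvPolynomial σ ℂ), J.card = r ∧
      (∀ j ∈ J, (G j).IsHomogeneous (d j)) ∧ I = Ideal.span (G '' (J : Set K)) ∧
      ∀ x ∈ cone I, x ≠ 0 → Module.finrank ℂ (N I x) = r →
        LinearIndependent ℂ (fun j : J => dif (G j) x) := by
  classical
  obtain ⟨J, G, t, hJr, hJ⟩ := exists_G h
  have hGI : ∀ j ∈ J, G j ∈ I := fun j hj => (hJ j hj).1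
  have hGh : ∀ j ∈ J, (G j).IsHomogeneous (d j) := fun j hj => (hJ j hj).2.1
  have hli : ∀ x, Y f x → LinearIndependent ℂ (fun j : J => dif (G j) x) := fun x hx =>
    li_G h hJr hGI (fun j hj => (hJ j hj).2.2) hx
  have hcardJ : Fintype.card J = r := by rw [Fintype.card_coe, hJr]
  have hrK : r ≤ Fintype.card K := by rw [← hJr]; exact J.card_le_univ
  have hrange : Set.range (fun j : J => G j) = G '' (J : Set K) := by
    ext a
    simp
  set g : Ideal (MvPolynomial σ ℂ) := Ideal.span (G '' (J : Set K)) with hg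
  have hgI : g ≤ I := by
    rw [hg, Ideal.span_le]
    rintro _ ⟨j, hj, rfl⟩
    exact hGI j hj
  have hGg : ∀ j ∈ J, G j ∈ g := fun j hj => Ideal.subset_span ⟨j, hj, rfl⟩
  -- local equations
  have hloc : ∀ x, Y f x → ∀ a ∈ I, Loc x g a := by
    intro x hx a ha
    have h1 := L0s h.prime h.dim hcardJ (fun j : J => G j) (fun j => hGI j j.2)
      (h.mem_cone hx) hx.1 (hli x hx) ha
    rwa [hrange] at h1
  -- step 1
  have step1 : ∀ Q : Ideal (MvPolynomial σ ℂ), HP Q → (∀ j ∈ J, G j ∈ Q) →
      Fintype.card K < dm Q → I ≤ Q := by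
    intro Q hQ hGQ hdm a ha
    obtain ⟨x, hxQ, hx0, hxf⟩ := ne_zero_of_dm hQ f
      (fun k => eval_zero_form (h.pos k) (h.hom k)) hdm
    obtain ⟨u, hu, hua⟩ := hloc x ⟨hx0, hxf⟩ a ha
    have h1 : g ≤ Q := by
      rw [hg, Ideal.span_le]
      rintro _ ⟨j, hj, rfl⟩
      exact hGQ j hj
    rcases hQ.prime.mem_or_mem (h1 hua) with h2 | h2
    · exact absurd (hxQ u h2) hu
    · exact h2
  -- step 2
  have step2 : cone g ⊆ cone I := by
    intro q hq
    obtain ⟨P, hP, hGP, hqP, hdm⟩ := comp_abs (fun j : J => G j)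
      (fun j => ⟨d j, hGh j j.2⟩) (q := q) (fun j => hq _ (hGg j j.2))
    rw [hcardJ] at hdm
    have hbig := h.big
    exact cone_anti (step1 P hP (fun j hj => hGP ⟨j, hj⟩) (by omega)) hqP
  -- step 3
  have hgh : HomI g := homI_span (by
    rintro _ ⟨j, hj, rfl⟩
    exact ⟨d j, hGh j hj⟩)
  have step3 : ∀ (e : ℕ) (a : MvPolynomial σ ℂ), a ∈ I → a.IsHomogeneous e → a ∈ g := by
    intro e a ha hae
    obtain ⟨x, hx⟩ := exists_Y h.toCIx
    have hxI := h.mem_cone hx
    obtain ⟨u, hu, hua⟩ := hloc x hx a ha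
    -- a component of `u` outside `I`
    have h1 : ∃ c, homogeneousComponent c u ∉ I := by
      by_contra hcon
      push Not at hcon
      exact hu (hxI u (mem_of_comp hcon))
    obtain ⟨c, hc⟩ := h1
    have h2 : homogeneousComponent c u * a ∈ g := by
      have h3 := hgh _ hua (c + e)
      rw [mul_comm u a, comp_mul_of_le hae u (Nat.le_add_left e c), Nat.add_sub_cancel] at h3
      rwa [mul_comm]
    obtain ⟨i, hi⟩ := exists_coord hx.1
    have h4 : (X i : MvPolynomial σ ℂ) ∉ I := fun h5 => hi (by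
      have := hxI _ h5
      rwa [eval_X] at this)
    set s : MvPolynomial σ ℂ := X i * homogeneousComponent c u with hs
    have hsI : s ∉ I := fun h5 => (h.prime.mem_or_mem h5).elim h4 hc
    have hsh : s.IsHomogeneous (1 + c) :=
      (isHomogeneous_X ℂ i).mul (homogeneousComponent_isHomogeneous c u)
    have hsa : s * a ∈ g := by
      rw [hs, mul_assoc]
      exact g.mul_mem_left _ h2
    -- the list of forms
    set L : List (MvPolynomial σ ℂ) := J.toList.map G with hL
    have hmemL : ∀ b, b ∈ L ↔ ∃ j ∈ J, G j = b := by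
      intro b
      rw [hL, List.mem_map]
      simp
    have hLS : LS L = g := by
      rw [hg, LS]
      congr 1
      ext b
      rw [Set.mem_ofPred_eq, hmemL]
      simp
    have hForms : Forms (L ++ [s]) := by
      intro b hb
      rcases List.mem_append.1 hb with hb | hb
      · obtain ⟨j, hj, rfl⟩ := (hmemL b).1 hb
        exact ⟨d j, h.pos j, hGh j hj⟩
      · rw [List.mem_singleton] at hb
        rw [hb]
        exact ⟨1 + c, Nat.le_add_right _ _, hsh⟩
    have hlen : (L ++ [s]).length = r + 1 := by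
      rw [List.length_append, hL, List.length_map, Finset.length_toList, hJr, List.length_singleton]
    have hcod : Codim (L ++ [s]) (L ++ [s]).length := by
      rw [hlen]
      intro Q hQ hLQ
      have hgQ : g ≤ Q := by
        rw [hg, Ideal.span_le]
        rintro _ ⟨j, hj, rfl⟩
        exact hLQ _ (List.mem_append_left _ ((hmemL _).2 ⟨j, hj, rfl⟩))
      have hIQ : I ≤ Q := fun b hb => mem_of_cone hQ.prime fun z hz =>
        step2 (cone_anti hgQ hz) b hb
      have hsQ : s ∈ Q := hLQ _ (List.mem_append_right _ (List.mem_singleton_self s))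
      have h5 := dm_lt h.prime hQ.prime hIQ hsQ hsI
      have h6 := h.dim
      omega
    have hreg := (regL_bot_append.1 (macaulay hForms hcod)).2
    rw [regL_singleton, hLS] at hreg
    exact hreg a hsa
  have hIg : I = g := by
    apply le_antisymm _ hgI
    intro a ha
    exact mem_of_comp fun e => step3 e _ (h.homog a ha e) (homogeneousComponent_isHomogeneous e a)
  refine ⟨J, G, hJr, hGh, hIg, ?_⟩
  intro x hx hx0 hrk
  have h1 : N I x ≤ Submodule.span ℂ (Set.range fun j : J => dif (G j) x) := by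
    intro v hv
    obtain ⟨F, hF, rfl⟩ := mem_N.1 hv
    rw [hIg, hg, ← hrange] at hF
    obtain ⟨c, rfl⟩ := Ideal.mem_span_range_iff_exists_fun.1 hF
    rw [dif_sum]
    refine Submodule.sum_mem _ fun j _ => ?_
    rw [dif_mul, hx _ (hGI j j.2), zero_smul, add_zero]
    exact Submodule.smul_mem _ _ (Submodule.subset_span ⟨j, rfl⟩)
  rw [linearIndependent_iff_card_le_finrank_span, hcardJ, ← hrk]
  exact Submodule.finrank_mono h1

end

end H71.CI
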