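import Pool.Agent.H71.CI.Defs

/-!
# Quasi-regular families modulo some of their members
-/

open MvPolynomial

set_option linter.unusedSectionVars false
set_option linter.unusedVariables false

namespace H71.CI

namespace QMod

/-- a homogeneous polynomial of degree `j` with coefficients in `b`, evaluated at `a`. -/
theorem eval_mem {A : Type*} [CommRing A] {T : Type*} (a : T → A) (b : Ideal A) {j : ℕ}
    {W : MvPolynomial T A} (hW : W.IsHomogeneous j) (hc : ∀ m, coeff m W ∈ b) :
    eval a W ∈ b * Ideal.span (Set.range a) ^ j := by
  classical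
  have h1 : eval a W = ∑ m ∈ W.support, coeff m W * eval a (monomial m 1) := by
    conv_lhs => rw [W.as_sum]
    rw [map_sum]
    refine Finset.sum_congr rfl fun m _ => ?_
    rw [eval_monomial, eval_monomial, one_mul]
  rw [h1]
  refine Ideal.sum_mem _ fun m hm => Ideal.mul_mem_mul (hc m) ?_
  refine (Ideal.mem_span_pow_iff_exists_isHomogeneous _ _).2 ⟨monomial m 1, ?_, rfl⟩
  refine isHomogeneous_monomial _ ?_
  by_contra hne
  exact (mem_support_iff.1 hm) (hW.coeff_eq_zero hne)

theorem QR_reindex {A : Type*} [CommRing A] {c : Ideal A} {T T' : Type*} (e : T' ≃ T) (a : T → A)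
    (h : QR c a) : QR c (fun t => a (e t)) := by
  intro ν F hF hev m
  have hr : Set.range (fun t => a (e t)) = Set.range a := by
    ext y
    constructor
    · rintro ⟨t, rfl⟩
      exact ⟨e t, rfl⟩
    · rintro ⟨t, rfl⟩
      exact ⟨e.symm t, by simp⟩
  rw [hr] at hev ⊢
  have h1 := h ν (rename e F) (hF.rename_isHomogeneous) (by
    rw [eval_rename]
    exact hev) (m.mapDomain e)
  rwa [coeff_rename_mapDomain e e.injective] at h1

end QMod

/-- C1: one element into the ideal. -/
theorem QR_quot {A : Type*} [CommRing A] {c : Ideal A} {T : Type*} [Finite T] (a₀ : A) (a : T → A)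
    (h : QR c (fun o : Option T => o.elim a₀ a)) : QR (c ⊔ Ideal.span {a₀}) a := by
  classical
  intro ν F hF hev m
  set b : Option T → A := fun o => o.elim a₀ a with hb
  have hJ : Ideal.span (Set.range b) = Ideal.span {a₀} ⊔ Ideal.span (Set.range a) := by
    rw [← Ideal.span_union]
    congr 1
    ext y
    constructor
    · rintro ⟨o, rfl⟩
      cases o with
      | none => exact Or.inl rfl
      | some t => exact Or.inr ⟨t, rfl⟩
    · rintro (hy | ⟨t, rfl⟩)
      · exact ⟨none, (Set.mem_singleton_iff.1 hy).symm⟩
      · exact ⟨some t, rfl⟩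
  have hJa : Ideal.span (Set.range a) ≤ Ideal.span (Set.range b) := by
    rw [hJ]; exact le_sup_right
  have ha0 : a₀ ∈ Ideal.span (Set.range b) := Ideal.subset_span ⟨none, rfl⟩
  -- decomposition of the value
  obtain ⟨y, hy, G, hG, hyG⟩ := Submodule.mem_sup.1 hev
  obtain ⟨c1, hc1, z, hz, hcz⟩ := Submodule.mem_sup.1 hy
  obtain ⟨w, rfl⟩ := Ideal.mem_span_singleton'.1 hz
  have hFe : eval a F = c1 + w * a₀ + G := by rw [← hyG, ← hcz]
  have hgoal : c ⊔ Ideal.span {a₀} ⊔ Ideal.span (Set.range a) = c ⊔ Ideal.span (Set.range b) := by
    rw [hJ, sup_assoc]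
  rw [hgoal]
  rcases ν with _ | μ
  · -- degree zero
    by_cases hm : m = 0
    · subst hm
      have hC : F = C (coeff 0 F) := by
        have := hF
        rw [← totalDegree_zero_iff_isHomogeneous] at this
        exact totalDegree_eq_zero_iff_eq_C.1 this
      have h2 : eval a F = coeff 0 F := by
        conv_lhs => rw [hC]
        exact eval_C _
      rw [← h2]
      rw [← hgoal]
      have := hev
      rw [zero_add, pow_one] at this
      exact this
    · rw [hF.coeff_eq_zero (by
        intro h0
        exact hm ((Finsupp.degree_eq_zero_iff m).1 h0))]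
      exact Submodule.zero_mem _
  · -- `w` lies in `c ⊔ J ^ j` for all `j ≤ μ`
    have hF1 : eval a F ∈ Ideal.span (Set.range b) ^ (μ + 1) := by
      have := (Ideal.mem_span_pow_iff_exists_isHomogeneous a (eval a F)).2 ⟨F, hF, rfl⟩
      exact Ideal.pow_right_mono hJa _ this
    have hG1 : G ∈ Ideal.span (Set.range b) ^ (μ + 1 + 1) := Ideal.pow_right_mono hJa _ hG
    have key : ∀ j, j ≤ μ → w ∈ c ⊔ Ideal.span (Set.range b) ^ j := by
      intro j
      induction j with
      | zero =>
        intro _
        rw [pow_zero, Ideal.one_eq_top, sup_top_eq]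
        exact Submodule.mem_top
      | succ j ih =>
        intro hj
        obtain ⟨c', hc', v, hv, hw⟩ := Submodule.mem_sup.1 (ih (by omega))
        obtain ⟨W, hW, hWv⟩ := (Ideal.mem_span_pow_iff_exists_isHomogeneous b v).1 hv
        have hXW : (X none * W : MvPolynomial (Option T) A).IsHomogeneous (j + 1) := by
          have := (isHomogeneous_X A (none : Option T)).mul hW
          rwa [add_comm] at this
        have hval : eval b (X none * W) = eval a F - c1 - G - a₀ * c' := by
          rw [map_mul, eval_X, hWv, hFe, ← hw]
          change a₀ * v = _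
          ring
        have hin : eval b (X none * W) ∈ c ⊔ Ideal.span (Set.range b) ^ (j + 1 + 1) := by
          rw [hval]
          have e1 : eval a F ∈ c ⊔ Ideal.span (Set.range b) ^ (j + 1 + 1) :=
            Ideal.mem_sup_right (Ideal.pow_le_pow_right (by omega) hF1)
          have e2 : c1 ∈ c ⊔ Ideal.span (Set.range b) ^ (j + 1 + 1) := Ideal.mem_sup_left hc1
          have e3 : G ∈ c ⊔ Ideal.span (Set.range b) ^ (j + 1 + 1) :=
            Ideal.mem_sup_right (Ideal.pow_le_pow_right (by omega) hG1)
          have e4 : a₀ * c' ∈ c ⊔ Ideal.span (Set.range b) ^ (j + 1 + 1) :=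
            Ideal.mem_sup_left (c.mul_mem_left _ hc')
          exact sub_mem (sub_mem (sub_mem e1 e2) e3) e4
        have hco := h (j + 1) _ hXW hin
        have hcW : ∀ m, coeff m W ∈ c ⊔ Ideal.span (Set.range b) := by
          intro m'
          have := hco (Finsupp.single none 1 + m')
          rwa [coeff_X_mul] at this
        have h3 := QMod.eval_mem b _ hW hcW
        rw [hWv, Ideal.sup_mul] at h3
        rw [← hw]
        refine add_mem (Ideal.mem_sup_left hc') ?_
        have h5 : c * Ideal.span (Set.range b) ^ j ≤ c :=
          Ideal.mul_le.2 fun r hr s _ => c.mul_mem_right s hr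
        have h6 : c * Ideal.span (Set.range b) ^ j ⊔
            Ideal.span (Set.range b) * Ideal.span (Set.range b) ^ j ≤
            c ⊔ Ideal.span (Set.range b) ^ (j + 1) := by
          rw [pow_succ']
          exact sup_le_sup h5 le_rfl
        exact h6 h3
    obtain ⟨c', hc', v, hv, hw⟩ := Submodule.mem_sup.1 (key μ le_rfl)
    obtain ⟨W, hW, hWv⟩ := (Ideal.mem_span_pow_iff_exists_isHomogeneous b v).1 hv
    have hXW : (X none * W : MvPolynomial (Option T) A).IsHomogeneous (μ + 1) := by
      have := (isHomogeneous_X A (none : Option T)).mul hW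
      rwa [add_comm] at this
    have hF' : (rename some F - X none * W : MvPolynomial (Option T) A).IsHomogeneous (μ + 1) :=
      (hF.rename_isHomogeneous).sub hXW
    have hval : eval b (rename some F - X none * W) = c1 + a₀ * c' + G := by
      rw [map_sub, map_mul, eval_X, hWv, eval_rename]
      have : (b ∘ some) = a := rfl
      rw [this, hFe, ← hw]
      change _ - a₀ * v = _
      ring
    have hin : eval b (rename some F - X none * W) ∈
        c ⊔ Ideal.span (Set.range b) ^ (μ + 1 + 1) := by
      rw [hval]
      exact add_mem (add_mem (Ideal.mem_sup_left hc1) (Ideal.mem_sup_left (c.mul_mem_left _ hc')))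
        (Ideal.mem_sup_right hG1)
    have hco := h (μ + 1) _ hF' hin (m.mapDomain some)
    rw [coeff_sub, coeff_rename_mapDomain some (Option.some_injective T), coeff_X_mul',
      if_neg, sub_zero] at hco
    · exact hco
    · intro hmem
      rw [Finsupp.mem_support_iff] at hmem
      apply hmem
      exact Finsupp.mapDomain_of_notMem_range _ _ (by simp)

namespace QMod

theorem quot_all {A : Type*} [CommRing A] {T : Type*} [Finite T] (a : T → A) (L : Type*) [Finite L] :
    ∀ (c : Ideal A) (g : L → A), QR c (Sum.elim g a) → QR (c ⊔ Ideal.span (Set.range g)) a := by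
  classical
  induction L using Finite.induction_empty_option with
  | of_equiv e ih =>
    rename_i α β
    intro c g h
    have h1 : QR c (Sum.elim (fun x => g (e x)) a) := by
      have := QR_reindex (e.sumCongr (Equiv.refl T)) (Sum.elim g a) h
      have h2 : (fun t => Sum.elim g a ((e.sumCongr (Equiv.refl T)) t)) =
          Sum.elim (fun x => g (e x)) a := by
        funext t
        cases t <;> rfl
      rwa [h2] at this
    have h3 := ih c _ h1
    have hr : Set.range (fun x => g (e x)) = Set.range g := by
      ext y
      constructor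
      · rintro ⟨t, rfl⟩
        exact ⟨e t, rfl⟩
      · rintro ⟨t, rfl⟩
        exact ⟨e.symm t, by simp⟩
    rwa [hr] at h3
  | h_empty =>
    intro c g h
    have hr : Set.range g = ∅ := Set.range_eq_empty g
    rw [hr, Ideal.span_empty, sup_bot_eq]
    have h1 := QR_reindex (Equiv.emptySum PEmpty T).symm (Sum.elim g a) h
    exact h1
  | h_option ih =>
    rename_i α _
    intro c g h
    have h1 : QR c (fun o : Option (α ⊕ T) => o.elim (g none) (Sum.elim (fun x => g (some x)) a)) := by
      let e : Option (α ⊕ T) ≃ (Option α) ⊕ T :=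
        { toFun := fun o => o.elim (Sum.inl none) (fun s => Sum.elim (fun x => Sum.inl (some x))
            (fun t => Sum.inr t) s)
          invFun := fun s => Sum.elim (fun o => o.elim none (fun x => some (Sum.inl x)))
            (fun t => some (Sum.inr t)) s
          left_inv := by
            rintro (_ | (x | t)) <;> rfl
          right_inv := by
            rintro ((_ | x) | t) <;> rfl }
      have := QR_reindex e (Sum.elim g a) h
      have h2 : (fun t => Sum.elim g a (e t)) =
          (fun o : Option (α ⊕ T) => o.elim (g none) (Sum.elim (fun x => g (some x)) a)) := by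
        funext t
        rcases t with _ | (x | t) <;> rfl
      rwa [h2] at this
    have h3 := QR_quot (g none) _ h1
    have h4 := ih _ _ h3
    have hr : c ⊔ Ideal.span {g none} ⊔ Ideal.span (Set.range fun x => g (some x)) =
        c ⊔ Ideal.span (Set.range g) := by
      rw [sup_assoc, ← Ideal.span_union]
      congr 2
      ext y
      constructor
      · rintro (hy | ⟨t, rfl⟩)
        · exact ⟨none, (Set.mem_singleton_iff.1 hy).symm⟩
        · exact ⟨some t, rfl⟩
      · rintro ⟨o, rfl⟩
        cases o with
        | none => exact Or.inl rfl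
        | some t => exact Or.inr ⟨t, rfl⟩
    rwa [hr] at h4

end QMod

/-- C2: several elements. -/
theorem QR_quot_fin {A : Type*} [CommRing A] {T : Type*} [Finite T] {L : Type*} [Finite L]
    (g : L → A) (a : T → A) (h : QR ⊥ (Sum.elim g a)) : QR (Ideal.span (Set.range g)) a := by
  have := QMod.quot_all a L ⊥ g h
  rwa [bot_sup_eq] at this

end H71.CI
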