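import Pool.Agent.H71.CI.Rows

/-!
# The first approximations
-/

open MvPolynomial

set_option linter.unusedSectionVars false
set_option linter.unusedVariables false

namespace H71.CI

open H89.Hart H94.Cubic H94.Deg

section

variable {σ : Type*} [Fintype σ] [DecidableEq σ] {K : Type*} [Fintype K] [DecidableEq K]

/-- the square matrix of a pivot system. -/
noncomputable def PM (J : Finset K) (g : K → K → MvPolynomial σ ℂ) :
    Matrix J J (MvPolynomial σ ℂ) := Matrix.of fun l j => g l j

theorem eval_det_PM {I : Ideal (MvPolynomial σ ℂ)} {f : K → MvPolynomial σ ℂ} {J : Finset K}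
    {x : σ → ℂ} {g : K → K → MvPolynomial σ ℂ} (hg : Pivot I f J x g) :
    eval x (PM J g).det = 1 := by
  have h1 : (PM J g).map (eval x) = 1 := by
    ext l j
    rw [Matrix.map_apply, PM, Matrix.of_apply, hg.2 l l.2 j j.2, Matrix.one_apply]
    by_cases hlj : l = j
    · subst hlj; simp
    · rw [if_neg (fun h => hlj (Subtype.ext h)), if_neg hlj]
  have h2 : eval x (PM J g).det = ((PM J g).map (eval x)).det := by
    rw [RingHom.map_det]; rfl
  rw [h2, h1, Matrix.det_one]

/-- if `M v ∈ c` then `det M v ∈ c`. -/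
theorem det_mul_mem {A : Type*} [CommRing A] {m : Type*} [Fintype m] [DecidableEq m]
    (M : Matrix m m A) (v : m → A) (c : Ideal A) (h : ∀ l, ∑ j, M l j * v j ∈ c) (j : m) :
    M.det * v j ∈ c := by
  have h1 : M.det * v j = ∑ l, M.adjugate j l * ∑ j', M l j' * v j' := by
    have h2 := congrFun (congrArg (fun N => Matrix.mulVec N v) (Matrix.adjugate_mul M)) j
    simp only [Matrix.smul_mulVec, Matrix.one_mulVec, Pi.smul_apply, smul_eq_mul] at h2
    rw [← h2, ← Matrix.mulVec_mulVec]
    rfl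
  rw [h1]
  exact Ideal.sum_mem _ fun l _ => c.mul_mem_left _ (h l)

theorem sum_coe_J (J : Finset K) {M : Type*} [AddCommMonoid M] (F : K → M) :
    ∑ j : J, F j = ∑ j ∈ J, F j := Finset.sum_coe_sort J F

/-- G1: the sections `t i j`. -/
theorem exists_t {I : Ideal (MvPolynomial σ ℂ)} {r : ℕ} {f : K → MvPolynomial σ ℂ} {d : K → ℕ}
    (h : Ctx I r f d) {J : Finset K} (hJr : J.card = r)
    (hJ : ∀ x, Y f x → ∃ g : K → K → MvPolynomial σ ℂ, Pivot I f J x g) :
    ∃ t : K → K → MvPolynomial σ ℂ, ∀ b ∈ HH I f, ∀ i, i ∉ J →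
      b i - ∑ j ∈ J, t i j * b j ∈ PP f := by
  rcases isEmpty_or_nonempty K with hK | hK
  · exact ⟨fun i => isEmptyElim i, fun b _ i => isEmptyElim i⟩
  have key : ∀ i : K, ∃ t : J → MvPolynomial σ ℂ, ∀ b ∈ HH I f,
      b i - ∑ j : J, t j * b j ∈ PP f := by
    intro i
    let D : Submodule (MvPolynomial σ ℂ) (MvPolynomial σ ℂ × (J → MvPolynomial σ ℂ)) :=
      { carrier := {p | ∀ b ∈ HH I f, p.1 * b i - ∑ j : J, p.2 j * b j ∈ PP f}
        add_mem' := by
          intro p q hp hq b hb
          have := (PP f).add_mem (hp b hb) (hq b hb)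
          convert this using 1
          simp only [Prod.fst_add, Prod.snd_add, Pi.add_apply, add_mul, Finset.sum_add_distrib]
          ring
        zero_mem' := by
          intro b hb
          simp
        smul_mem' := by
          intro c p hp b hb
          have := (PP f).mul_mem_left c (hp b hb)
          convert this using 1
          simp only [Prod.smul_fst, Prod.smul_snd, Pi.smul_apply, smul_eq_mul, mul_sub,
            Finset.mul_sum]
          congr 1
          · ring
          · exact Finset.sum_congr rfl fun l _ => by ring }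
    have hD : ∀ p, p ∈ D ↔ ∀ b ∈ HH I f, p.1 * b i - ∑ j : J, p.2 j * b j ∈ PP f :=
      fun p => Iff.rfl
    have hD1 : ∀ τ : J → MvPolynomial σ ℂ, ((0 : MvPolynomial σ ℂ), τ) ∈ D →
        ∀ j, τ j ∈ PP f := by
        intro τ hτ j
        apply sat_one h.toCIx
        intro x hx
        obtain ⟨g, hg⟩ := hJ x hx
        refine ⟨(PM J g).det, by rw [eval_det_PM hg]; exact one_ne_zero, ?_⟩
        apply det_mul_mem
        intro l
        have h1 := (hD _).1 hτ (g l) (hg.1 l)
        simp only [zero_mul, zero_sub] at h1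
        rw [neg_mem_iff] at h1
        convert h1 using 1
        exact Finset.sum_congr rfl fun j _ => by rw [PM, Matrix.of_apply, mul_comm]
    have hD2 : ∀ x, Y f x → ∃ p ∈ D, eval x p.1 ≠ 0 := by
        intro x hx
        obtain ⟨g, hg⟩ := hJ x hx
        obtain ⟨u, hu, hgen⟩ := local_gen h hx (A := J) (by rw [Fintype.card_coe, hJr])
          (fun l => g l) (fun l => hg.1 l) (li_ev_pivot hg)
        refine ⟨(u * (PM J g).det, fun j => u * ∑ l : J, (PM J g).adjugate j l * g l i), ?_, ?_⟩
        · rw [hD]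
          intro b hb
          obtain ⟨a, ha⟩ := hgen b hb
          -- `det M * a l ≡ ∑ j, u * b j * adj j l`
          have h1 : ∀ l : J, (PM J g).det * a l - ∑ j : J, u * b j * (PM J g).adjugate j l ∈
              PP f := by
            intro l
            have h2 : (PM J g).det * a l = ∑ j : J, (∑ l' : J, a l' * (PM J g) l' j) *
                (PM J g).adjugate j l := by
              have h3 := congrFun (congrArg (fun N => Matrix.vecMul a N)
                (Matrix.mul_adjugate (PM J g))) l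
              simp only [Matrix.vecMul_smul, Matrix.vecMul_one, Pi.smul_apply, smul_eq_mul] at h3
              rw [← h3, ← Matrix.vecMul_vecMul]
              rfl
            rw [h2, ← Finset.sum_sub_distrib]
            refine Ideal.sum_mem _ fun j _ => ?_
            rw [← sub_mul]
            refine Ideal.mul_mem_right _ _ ?_
            rw [← neg_mem_iff, neg_sub]
            exact ha j
          have h4 : u * (PM J g).det * b i - ∑ j : J, (u * ∑ l : J, (PM J g).adjugate j l * g l i) *
              b j = (PM J g).det * (u * b i - ∑ l : J, a l * g l i) +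
              ∑ l : J, g l i * ((PM J g).det * a l - ∑ j : J, u * b j * (PM J g).adjugate j l) := by
            have e1 : ∑ j : J, (u * ∑ l : J, (PM J g).adjugate j l * g l i) * b j =
                ∑ l : J, g l i * ∑ j : J, u * b j * (PM J g).adjugate j l := by
              simp only [Finset.mul_sum, Finset.sum_mul]
              rw [Finset.sum_comm]
              exact Finset.sum_congr rfl fun l _ => Finset.sum_congr rfl fun j _ => by ring
            rw [e1]
            simp only [mul_sub, Finset.sum_sub_distrib]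
            have e2 : ∑ l : J, g l i * ((PM J g).det * a l) = (PM J g).det * ∑ l : J, a l * g l i := by
              rw [Finset.mul_sum]
              exact Finset.sum_congr rfl fun l _ => by ring
            rw [e2]
            ring
          change u * (PM J g).det * b i - ∑ j : J, (u * ∑ l : J, (PM J g).adjugate j l * g l i) *
              b j ∈ PP f
          rw [h4]
          exact Ideal.add_mem _ (Ideal.mul_mem_left _ _ (ha i))
            (Ideal.sum_mem _ fun l _ => Ideal.mul_mem_left _ _ (h1 l))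
        · change eval x (u * (PM J g).det) ≠ 0
          rw [map_mul, eval_det_PM hg, mul_one]
          exact hu
    obtain ⟨t, ht⟩ := glue h.toCIx D hD1 hD2
    refine ⟨t, fun b hb => ?_⟩
    -- conclude
    apply sat_one h.toCIx
    intro x hx
    obtain ⟨p, hp, hpx⟩ := hD2 x hx
    refine ⟨p.1, hpx, ?_⟩
    have h1 := (hD p).1 hp b hb
    have h2 := ht p hp
    have h3 : p.1 * (b i - ∑ j : J, t j * b j) = (p.1 * b i - ∑ j : J, p.2 j * b j) +
        ∑ j : J, (p.2 j - p.1 * t j) * b j := by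
      simp only [sub_mul, Finset.sum_sub_distrib, mul_sub, Finset.mul_sum, mul_assoc]
      ring
    rw [h3]
    exact Ideal.add_mem _ h1 (Ideal.sum_mem _ fun j _ => Ideal.mul_mem_right _ _ (h2 j))
  choose t ht using key
  refine ⟨fun i j => if hj : j ∈ J then t i ⟨j, hj⟩ else 0, fun b hb i _ => ?_⟩
  have h1 := ht i b hb
  rw [← sum_coe_J J]
  convert h1 using 2
  refine Finset.sum_congr rfl fun j _ => ?_
  beta_reduce
  rw [dif_pos j.2]

/-- G2: the first approximations. -/
theorem loc_two {I : Ideal (MvPolynomial σ ℂ)} {r : ℕ} {f : K → MvPolynomial σ ℂ} {d : K → ℕ}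
    (h : Ctx I r f d) {J : Finset K} {t : K → K → MvPolynomial σ ℂ}
    (ht : ∀ b ∈ HH I f, ∀ i, i ∉ J → b i - ∑ j ∈ J, t i j * b j ∈ PP f) {x : σ → ℂ} (hx : Y f x)
    {g : K → K → MvPolynomial σ ℂ} (hg : Pivot I f J x g) {j : K} (hj : j ∈ J) :
    Loc x (I ⊔ PP f ^ 2) (f j + ∑ i ∈ Jᶜ, t i j * f i) := by
  refine ⟨(PM J g).det, by rw [eval_det_PM hg]; exact one_ne_zero, ?_⟩
  refine det_mul_mem (PM J g) (fun j : J => f j + ∑ i ∈ Jᶜ, t i j * f i) _ ?_ ⟨j, hj⟩
  intro l
  have h1 : ∑ k, g l k * f k = ∑ j : J, g l j * f j + ∑ i ∈ Jᶜ, g l i * f i := by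
    rw [sum_coe_J J (fun k => g l k * f k), Finset.sum_add_sum_compl]
  have h2 : ∑ j : J, (PM J g) l j * (f j + ∑ i ∈ Jᶜ, t i j * f i) =
      ∑ k, g l k * f k - ∑ i ∈ Jᶜ, (g l i - ∑ j ∈ J, t i j * g l j) * f i := by
    rw [h1]
    simp only [PM, Matrix.of_apply, mul_add, Finset.sum_add_distrib, sub_mul,
      Finset.sum_sub_distrib]
    have e1 : ∑ j : J, g l j * ∑ i ∈ Jᶜ, t i j * f i =
        ∑ i ∈ Jᶜ, (∑ j ∈ J, t i j * g l j) * f i := by
      rw [sum_coe_J J (fun j => g l j * ∑ i ∈ Jᶜ, t i j * f i)]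
      simp only [Finset.mul_sum, Finset.sum_mul]
      rw [Finset.sum_comm]
      exact Finset.sum_congr rfl fun i _ => Finset.sum_congr rfl fun j _ => by ring
    rw [e1]
    ring
  rw [h2]
  refine Ideal.sub_mem _ (Ideal.mem_sup_left (mem_HH.1 (hg.1 l))) (Ideal.mem_sup_right ?_)
  refine Ideal.sum_mem _ fun i hi => ?_
  rw [pow_two]
  exact Ideal.mul_mem_mul (ht _ (hg.1 l) i (Finset.mem_compl.1 hi)) (f_mem f i)

attribute [local instance] MvPolynomial.gradedAlgebra in
theorem homI_pow {c : Ideal (MvPolynomial σ ℂ)} (h : HomI c) (a : ℕ) : HomI (c ^ a) := by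
  rw [homI_iff] at *
  induction a with
  | zero =>
    rw [pow_zero, Ideal.one_eq_top]
    exact Ideal.IsHomogeneous.top (homogeneousSubmodule σ ℂ)
  | succ a ih =>
    rw [pow_succ]
    exact ih.mul h

theorem homI_PP {f : K → MvPolynomial σ ℂ} {d : K → ℕ} (h : CIx f d) : HomI (PP f) :=
  homI_span (by rintro _ ⟨k, rfl⟩; exact ⟨d k, h.hom k⟩)

/-- G3: homogeneous components. -/
theorem loc_comp {I : Ideal (MvPolynomial σ ℂ)} {r : ℕ} {f : K → MvPolynomial σ ℂ} {d : K → ℕ}
    (h : Ctx I r f d) {a : ℕ} {H : MvPolynomial σ ℂ}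
    (hH : ∀ x, Y f x → Loc x (I ⊔ PP f ^ a) H) (e : ℕ) {x : σ → ℂ} (hx : Y f x) :
    Loc x (I ⊔ PP f ^ a) (homogeneousComponent e H) := by
  let C : Ideal (MvPolynomial σ ℂ) :=
    Submodule.comap (LinearMap.mulRight (MvPolynomial σ ℂ) H) (I ⊔ PP f ^ a)
  have hC : ∀ b, b ∈ C ↔ b * H ∈ I ⊔ PP f ^ a := fun b => Iff.rfl
  have h0 : ∀ y ∈ cone C, y = 0 := by
    intro y hy
    by_contra hy0
    by_cases hyY : ∀ k, eval y (f k) = 0
    · obtain ⟨u, hu, hm⟩ := hH y ⟨hy0, hyY⟩
      exact hu (hy u ((hC u).2 hm))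
    · push Not at hyY
      obtain ⟨k, hk⟩ := hyY
      apply pow_ne_zero a hk
      rw [← map_pow]
      apply hy
      rw [hC]
      exact Ideal.mul_mem_right _ _ (Ideal.mem_sup_right (Ideal.pow_mem_pow (f_mem f k) a))
  obtain ⟨i, hi⟩ := exists_coord hx.1
  obtain ⟨M, hM⟩ := pow_mem_of_cone h0 (isHomogeneous_X ℂ i)
  refine ⟨X i ^ M, by rw [map_pow, eval_X]; exact pow_ne_zero _ hi, ?_⟩
  have h1 := (hC _).1 (hM M le_rfl)
  have h2 : HomI (I ⊔ PP f ^ a) := homI_sup h.homog (homI_pow (homI_PP h.toCIx) a)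
  have h3 := h2 _ h1 (M + e)
  have h4 : (X i ^ M : MvPolynomial σ ℂ).IsHomogeneous M := by
    have := (isHomogeneous_X ℂ i).pow M
    rwa [one_mul] at this
  rwa [comp_mul_of_le h4 _ (Nat.le_add_right _ _), Nat.add_sub_cancel_left] at h3

/-- G4: homogeneous first approximations. -/
theorem exists_first {I : Ideal (MvPolynomial σ ℂ)} {r : ℕ} {f : K → MvPolynomial σ ℂ} {d : K → ℕ}
    (h : Ctx I r f d) {J : Finset K} (hJr : J.card = r)
    (hJ : ∀ x, Y f x → ∃ g : K → K → MvPolynomial σ ℂ, Pivot I f J x g) :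
    ∃ t : K → K → MvPolynomial σ ℂ, ∀ j ∈ J,
      (f j + ∑ i ∈ Jᶜ, t i j * f i).IsHomogeneous (d j) ∧
      ∀ x, Y f x → Loc x (I ⊔ PP f ^ 2) (f j + ∑ i ∈ Jᶜ, t i j * f i) := by
  obtain ⟨t, ht⟩ := exists_t h hJr hJ
  refine ⟨fun i j => if d i ≤ d j then homogeneousComponent (d j - d i) (t i j) else 0,
    fun j hj => ?_⟩
  have h1 : f j + ∑ i ∈ Jᶜ, (if d i ≤ d j then homogeneousComponent (d j - d i) (t i j) else 0) *
      f i = homogeneousComponent (d j) (f j + ∑ i ∈ Jᶜ, t i j * f i) := by
    rw [map_add, map_sum]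
    congr 1
    · rw [homogeneousComponent_of_mem ((mem_homogeneousSubmodule _ _).2 (h.hom j)), if_pos rfl]
    · exact Finset.sum_congr rfl fun i _ => (Theta.comp_mul (h.hom i) _ _).symm
  refine ⟨?_, fun x hx => ?_⟩
  · rw [h1]
    exact homogeneousComponent_isHomogeneous _ _
  · rw [h1]
    refine loc_comp h (fun y hy => ?_) _ hx
    obtain ⟨g, hg⟩ := hJ y hy
    exact loc_two h ht hy hg hj

end

end H71.CI
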